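import Mathlib

namespace Pool.Agent.N261.BC

open Filter Topology

/-- standing parameter conditions -/
structure Par (α A B : ℝ) : Prop where
  ha : 0 < α
  hB : 1 < B
  hA0 : 0 ≤ A
  hA1 : A < 1
  hH : α < (B - 1) * (1 - A) ^ 2 / 4

/-- solution; `x n` is the term with index `n - 1` of the problem -/
def Sol (α A B : ℝ) (x : ℕ → ℝ) : Prop :=
  0 ≤ x 0 ∧ 0 ≤ x 1 ∧ 0 < A + B * x 1 + x 0 ∧
    ∀ n, x (n + 2) = (α + x n) / (A + B * x (n + 1) + x n)

noncomputable def xb (α A B : ℝ) : ℝ :=
  (1 - A + Real.sqrt ((1 - A) ^ 2 + 4 * α * (1 + B))) / (2 * (1 + B))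

noncomputable def mm (α A B : ℝ) : ℝ :=
  (1 - A - Real.sqrt ((1 - A) ^ 2 - 4 * α / (B - 1))) / 2

noncomputable def MM (α A B : ℝ) : ℝ :=
  (1 - A + Real.sqrt ((1 - A) ^ 2 - 4 * α / (B - 1))) / 2

variable {α A B : ℝ}

theorem Par.D_pos (h : Par α A B) : 0 < (1 - A) ^ 2 - 4 * α / (B - 1) := by
  have h1 : 0 < B - 1 := by linarith [h.hB]
  have h2 := h.hH
  have : 4 * α / (B - 1) < (1 - A) ^ 2 := by
    rw [div_lt_iff₀ h1]; nlinarith
  linarith

theorem Par.mM_sum (_h : Par α A B) : mm α A B + MM α A B = 1 - A := by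
  unfold mm MM; ring

theorem Par.mM_mul (h : Par α A B) : (B - 1) * (mm α A B * MM α A B) = α := by
  have h1 : 0 < B - 1 := by linarith [h.hB]
  have h2 := Real.sq_sqrt h.D_pos.le
  have : mm α A B * MM α A B = ((1 - A) ^ 2 - Real.sqrt ((1 - A) ^ 2 - 4 * α / (B - 1)) ^ 2) / 4 := by
    unfold mm MM; ring
  rw [this, h2]
  field_simp
  ring

theorem Par.m_lt_M (h : Par α A B) : mm α A B < MM α A B := by
  have := Real.sqrt_pos.2 h.D_pos
  unfold mm MM
  linarith

theorem Par.m_pos (h : Par α A B) : 0 < mm α A B := by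
  have h1 : 0 < B - 1 := by linarith [h.hB]
  have hs := h.mM_sum
  have hm := h.mM_mul
  have hl := h.m_lt_M
  have ha := h.ha
  have hM : 0 < MM α A B := by
    have := h.hA1
    linarith
  by_contra hc
  have hc : mm α A B ≤ 0 := not_lt.1 hc
  have : mm α A B * MM α A B ≤ 0 := mul_nonpos_of_nonpos_of_nonneg hc hM.le
  nlinarith

theorem Par.M_pos (h : Par α A B) : 0 < MM α A B := lt_trans h.m_pos h.m_lt_M

theorem Par.M_lt_one (h : Par α A B) : MM α A B < 1 := by
  have := h.mM_sum
  have := h.m_pos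
  have := h.hA0
  linarith

/-- the small value of the cycle is in the good region -/
theorem Par.m_good (h : Par α A B) : α < A + B * mm α A B := by
  have h1 := h.mM_mul
  have h2 := h.m_pos
  have h3 := h.M_lt_one
  have h4 := h.hB
  have h5 := h.hA0
  have h6 := h.M_pos
  nlinarith [mul_pos h2 h6, mul_pos h2 (sub_pos.2 h3), mul_pos (sub_pos.2 h4) h2]

theorem Par.xb_pos (h : Par α A B) : 0 < xb α A B := by
  have h1 := h.hB
  have h2 := h.hA1
  unfold xb
  have := Real.sqrt_nonneg ((1 - A) ^ 2 + 4 * α * (1 + B))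
  apply div_pos <;> linarith

theorem Par.xb_eq (h : Par α A B) :
    xb α A B * (A + B * xb α A B + xb α A B) = α + xb α A B := by
  have h1 := h.hB
  have h0 := h.ha
  have hp : 0 ≤ (1 - A) ^ 2 + 4 * α * (1 + B) := by positivity
  have h2 := Real.sq_sqrt hp
  have h3 : 2 * (1 + B) * xb α A B = 1 - A + Real.sqrt ((1 - A) ^ 2 + 4 * α * (1 + B)) := by
    unfold xb
    field_simp
  set r := Real.sqrt ((1 - A) ^ 2 + 4 * α * (1 + B)) with hr
  have h4 : (2 * (1 + B) * xb α A B - (1 - A)) ^ 2 = (1 - A) ^ 2 + 4 * α * (1 + B) := by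
    rw [← h2, h3]; ring
  have h5 : 4 * (1 + B) * ((1 + B) * xb α A B ^ 2 - (1 - A) * xb α A B - α) = 0 := by
    nlinarith
  have h6 : (1 + B) * xb α A B ^ 2 - (1 - A) * xb α A B - α = 0 := by
    rcases mul_eq_zero.1 h5 with h6 | h6
    · exfalso; linarith
    · exact h6
  nlinarith

/-- uniqueness of the nonnegative fixed point -/
theorem Par.xb_unique (h : Par α A B) {a : ℝ} (ha : 0 ≤ a)
    (he : a * (A + B * a + a) = α + a) : a = xb α A B := by
  have h0 := h.ha
  have h1 := h.xb_eq
  have h2 := h.xb_pos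
  have h3 := h.hB
  have h4 : (a - xb α A B) * ((1 + B) * (a * xb α A B) + α) = 0 := by
    set z := xb α A B
    have e1 : α = a * (A + B * a + a) - a := by linarith
    have e2 : (1 + B) * z ^ 2 = (1 - A) * z + α := by nlinarith
    have e3 : (1 + B) * a ^ 2 = (1 - A) * a + α := by nlinarith
    have : (a - z) * ((1 + B) * (a * z) + α) = z * ((1 + B) * a ^ 2) - a * ((1 + B) * z ^ 2)
      + α * a - α * z := by ring
    rw [this, e2, e3]; ring
  rcases mul_eq_zero.1 h4 with h5 | h5
  · linarith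
  · exfalso
    have : 0 ≤ a * xb α A B := mul_nonneg ha h2.le
    nlinarith

theorem Par.xb_lt_half (h : Par α A B) : 2 * xb α A B < 1 - A := by
  have h1 := h.xb_eq
  have h2 := h.xb_pos
  have h3 := h.hB
  have h4 := h.hH
  have h5 := h.hA1
  by_contra hc
  have hc : 1 - A ≤ 2 * xb α A B := not_lt.1 hc
  set z := xb α A B
  -- (1+B) z^2 - (1-A) z = α, increasing in z for z ≥ (1-A)/2
  have e : α = z * ((1 + B) * z - (1 - A)) := by nlinarith
  have f1 : (1 - A) / 2 ≤ z := by linarith
  have f2 : (B - 1) * (1 - A) / 2 ≤ (1 + B) * z - (1 - A) := by nlinarith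
  have f3 : 0 < (B - 1) * (1 - A) / 2 := by
    have : 0 < (B - 1) * (1 - A) := mul_pos (by linarith) (by linarith)
    linarith
  have f4 : (1 - A) / 2 * ((B - 1) * (1 - A) / 2) ≤ z * ((1 + B) * z - (1 - A)) :=
    mul_le_mul f1 f2 f3.le h2.le
  nlinarith

theorem Par.m_lt_xb_lt_M (h : Par α A B) : mm α A B < xb α A B ∧ xb α A B < MM α A B := by
  have h1 := h.xb_eq
  have h2 := h.xb_pos
  have h3 := h.hB
  have h4 := h.mM_mul
  have h5 := h.mM_sum
  have h6 := h.xb_lt_half
  have h7 := h.m_lt_M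
  set z := xb α A B
  set m := mm α A B
  set M := MM α A B
  have e : (B - 1) * ((z - m) * (z - M)) = B * z * (2 * z - (1 - A)) := by
    have : (z - m) * (z - M) = z ^ 2 - (m + M) * z + m * M := by ring
    rw [this, h5, mul_add, h4]
    nlinarith
  have e2 : (z - m) * (z - M) < 0 := by
    have : B * z * (2 * z - (1 - A)) < 0 := by
      have : 0 < B * z := mul_pos (by linarith) h2
      nlinarith
    rw [← e] at this
    by_contra hc
    have hc := not_lt.1 hc
    have : 0 ≤ (B - 1) * ((z - m) * (z - M)) := mul_nonneg (by linarith) hc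
    linarith
  constructor
  · by_contra hc
    have hc := not_lt.1 hc
    have : 0 ≤ (z - m) * (z - M) := mul_nonneg_of_nonpos_of_nonpos (by linarith) (by linarith)
    linarith
  · by_contra hc
    have hc := not_lt.1 hc
    have : 0 ≤ (z - m) * (z - M) := mul_nonneg (by linarith) (by linarith)
    linarith

theorem Par.cyc1 (h : Par α A B) :
    mm α A B * (A + B * MM α A B + mm α A B) = α + mm α A B := by
  have h4 := h.mM_mul
  have h5 := h.mM_sum
  linear_combination (mm α A B) * h5 + h4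

theorem Par.cyc2 (h : Par α A B) :
    MM α A B * (A + B * mm α A B + MM α A B) = α + MM α A B := by
  have h4 := h.mM_mul
  have h5 := h.mM_sum
  linear_combination (MM α A B) * h5 + h4

theorem Par.xb_good (h : Par α A B) : α < A + B * xb α A B := by
  have h1 := h.m_good
  have h2 := h.m_lt_xb_lt_M.1
  have h3 := h.hB
  nlinarith

theorem Par.M_good (h : Par α A B) : α < A + B * MM α A B := by
  have h1 := h.m_good
  have h2 := h.m_lt_M
  have h3 := h.hB
  nlinarith

/-- instability inequality -/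
theorem Par.unstable (h : Par α A B) :
    (A + B * xb α A B + xb α A B) ^ 2 <
      (A + B * xb α A B - α) + B * (α + xb α A B) := by
  have h1 := h.xb_eq
  have h2 := h.xb_pos
  have h3 := h.xb_lt_half
  have h4 := h.hB
  have h5 := h.hA0
  set z := xb α A B
  have hD : 0 < A + B * z + z := by
    have : 0 < B * z := mul_pos (by linarith) h2
    linarith
  have e1 : α = z * (A + B * z + z) - z := by linarith
  have : (A + B * z - α) + B * (α + z) - (A + B * z + z) ^ 2
      = (A + B * z + z) * (1 - A - 2 * z) := by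
    rw [← h1]
    nlinarith
  have h6 : 0 < (A + B * z + z) * (1 - A - 2 * z) := mul_pos hD (by linarith)
  linarith

theorem Par.a_lt_B (h : Par α A B) : α < B := by
  have h1 := h.hH
  have h2 := h.hA0
  have h3 := h.hA1
  have h4 := h.hB
  have : (1 - A) ^ 2 ≤ 1 := by nlinarith
  nlinarith

/-- monotonicity of one step -/
theorem step_mono (h : Par α A B) {u v u' v' : ℝ} (hu : 0 ≤ u)
    (hD' : 0 < A + B * v' + u') (huu : u ≤ u') (hvv : v' ≤ v) (hD : 0 < A + B * v + u)
    (hg : α ≤ A + B * v) :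
    (α + u) / (A + B * v + u) ≤ (α + u') / (A + B * v' + u') := by
  have h0 := h.ha
  have h1 := h.hB
  rw [div_le_div_iff₀ hD hD']
  have e : (α + u') * (A + B * v + u) - (α + u) * (A + B * v' + u')
      = (u' - u) * (A + B * v - α) + B * (v - v') * (α + u) := by ring
  have t1 : 0 ≤ (u' - u) * (A + B * v - α) := mul_nonneg (by linarith) (by linarith)
  have t2 : 0 ≤ B * (v - v') * (α + u) :=
    mul_nonneg (mul_nonneg (by linarith) (by linarith)) (by linarith)
  linarith

theorem step_diff {u v u' v' : ℝ} (hD : 0 < A + B * v + u) (hD' : 0 < A + B * v' + u') :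
    (α + u') / (A + B * v' + u') - (α + u) / (A + B * v + u) =
      ((u' - u) * (A + B * v - α) - B * (α + u) * (v' - v)) /
        ((A + B * v + u) * (A + B * v' + u')) := by
  rw [div_sub_div _ _ hD'.ne' hD.ne', div_eq_div_iff (by positivity) (by positivity)]
  ring

end Pool.Agent.N261.BC
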