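import Pool.Agent.N261.BC.Dyn

namespace Pool.Agent.N261.BC

open Filter Topology

variable {α A B : ℝ}

/-- monotone or antitone and bounded -/
theorem conv_of_mono {f : ℕ → ℝ} {C : ℝ} (hb : ∀ n, 0 ≤ f n ∧ f n ≤ C)
    (hm : Monotone f ∨ Antitone f) : ∃ a, Tendsto f atTop (𝓝 a) := by
  rcases hm with hm | hm
  · exact ⟨_, tendsto_atTop_ciSup hm ⟨C, by rintro _ ⟨n, rfl⟩; exact (hb n).2⟩⟩
  · exact ⟨_, tendsto_atTop_ciInf hm ⟨0, by rintro _ ⟨n, rfl⟩; exact (hb n).1⟩⟩

/-- alternating pattern of increments -/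
theorem Sol.alt (h : Par α A B) {x : ℕ → ℝ} (hx : Sol α A B x) {N : ℕ}
    (hg : ∀ n, N ≤ n → α ≤ A + B * x n) {n : ℕ} (hn : N ≤ n)
    (h1 : x n ≤ x (n + 2)) (h2 : x (n + 3) ≤ x (n + 1)) (k : ℕ) :
    x (n + 2 * k) ≤ x (n + 2 * k + 2) ∧ x (n + 2 * k + 3) ≤ x (n + 2 * k + 1) := by
  induction k with
  | zero => exact ⟨h1, h2⟩
  | succ k ih =>
    have e1 : n + 2 * (k + 1) = n + 2 * k + 2 := by ring
    rw [e1]
    have s1 : x (n + 2 * k + 2) ≤ x (n + 2 * k + 4) :=
      hx.cmp_step h hx (i := n + 2 * k) (j := n + 2 * k + 2) ih.1 ih.2 (hg _ (by omega))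
    have s2 : x (n + 2 * k + 5) ≤ x (n + 2 * k + 3) :=
      hx.cmp_step h hx (i := n + 2 * k + 3) (j := n + 2 * k + 1) ih.2 s1 (hg _ (by omega))
    exact ⟨s1, s2⟩

theorem Sol.two_limits_aux (h : Par α A B) {x : ℕ → ℝ} (hx : Sol α A B x) :
    ∃ N a b, Tendsto (fun k => x (N + 2 * k)) atTop (𝓝 a) ∧
      Tendsto (fun k => x (N + 2 * k + 1)) atTop (𝓝 b) := by
  obtain ⟨N0, hN0⟩ := hx.eventually_good h
  have hbd : ∀ n, N0 + 2 ≤ n → x n ≤ 1 := by
    intro n hn
    obtain ⟨j, rfl⟩ := Nat.exists_eq_add_of_le hn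
    have := hx.good_next h (n := N0 + j) (hN0 _ (by omega))
    have e : N0 + 2 + j = N0 + j + 2 := by ring
    rw [e]; exact this
  by_cases hcase : ∃ n, N0 + 2 ≤ n ∧ x n ≤ x (n + 2) ∧ x (n + 3) ≤ x (n + 1)
  · obtain ⟨n, hn, h1, h2⟩ := hcase
    have hal := fun k => hx.alt h hN0 (n := n) (by omega) h1 h2 k
    obtain ⟨a, ha⟩ := conv_of_mono (f := fun k => x (n + 2 * k)) (C := 1)
      (fun k => ⟨hx.nonneg h _, hbd _ (by omega)⟩)
      (Or.inl (monotone_nat_of_le_succ (fun k => by
        have := (hal k).1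
        have e1 : n + 2 * (k + 1) = n + 2 * k + 2 := by ring
        rw [e1]; exact this)))
    obtain ⟨b, hb⟩ := conv_of_mono (f := fun k => x (n + 2 * k + 1)) (C := 1)
      (fun k => ⟨hx.nonneg h _, hbd _ (by omega)⟩)
      (Or.inr (antitone_nat_of_succ_le (fun k => by
        have := (hal k).2
        have e1 : n + 2 * (k + 1) + 1 = n + 2 * k + 3 := by ring
        rw [e1]; exact this)))
    exact ⟨n, a, b, ha, hb⟩
  · push Not at hcase
    -- for all large n : x n ≤ x (n+2) implies x (n+1) < x (n+3)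
    by_cases hup : ∃ n, N0 + 2 ≤ n ∧ x n ≤ x (n + 2)
    · obtain ⟨n, hn, h1⟩ := hup
      have hall : ∀ j, x (n + j) ≤ x (n + j + 2) := by
        intro j
        induction j with
        | zero => exact h1
        | succ j ih =>
          have := hcase (n + j) (by omega) ih
          have e1 : n + (j + 1) = n + j + 1 := by ring
          have e2 : n + j + 1 + 2 = n + j + 3 := by ring
          rw [e1, e2]
          exact this.le
      obtain ⟨a, ha⟩ := conv_of_mono (f := fun k => x (n + 2 * k)) (C := 1)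
        (fun k => ⟨hx.nonneg h _, hbd _ (by omega)⟩)
        (Or.inl (monotone_nat_of_le_succ (fun k => by
          have := hall (2 * k)
          have e1 : n + 2 * (k + 1) = n + 2 * k + 2 := by ring
          rw [e1]; exact this)))
      obtain ⟨b, hb⟩ := conv_of_mono (f := fun k => x (n + 2 * k + 1)) (C := 1)
        (fun k => ⟨hx.nonneg h _, hbd _ (by omega)⟩)
        (Or.inl (monotone_nat_of_le_succ (fun k => by
          have := hall (2 * k + 1)
          have e1 : n + 2 * (k + 1) + 1 = n + (2 * k + 1) + 2 := by ring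
          rw [e1]; exact this)))
      exact ⟨n, a, b, ha, hb⟩
    · push Not at hup
      obtain ⟨a, ha⟩ := conv_of_mono (f := fun k => x (N0 + 2 + 2 * k)) (C := 1)
        (fun k => ⟨hx.nonneg h _, hbd _ (by omega)⟩)
        (Or.inr (antitone_nat_of_succ_le (fun k => by
          have := hup (N0 + 2 + 2 * k) (by omega)
          have e1 : N0 + 2 + 2 * (k + 1) = N0 + 2 + 2 * k + 2 := by ring
          rw [e1]; exact this.le)))
      obtain ⟨b, hb⟩ := conv_of_mono (f := fun k => x (N0 + 2 + 2 * k + 1)) (C := 1)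
        (fun k => ⟨hx.nonneg h _, hbd _ (by omega)⟩)
        (Or.inr (antitone_nat_of_succ_le (fun k => by
          have := hup (N0 + 2 + 2 * k + 1) (by omega)
          have e1 : N0 + 2 + 2 * (k + 1) + 1 = N0 + 2 + 2 * k + 1 + 2 := by ring
          rw [e1]; exact this.le)))
      exact ⟨N0 + 2, a, b, ha, hb⟩

/-- the even and the odd subsequences converge -/
theorem Sol.two_limits (h : Par α A B) {x : ℕ → ℝ} (hx : Sol α A B x) :
    ∃ a b, Tendsto (fun k => x (2 * k)) atTop (𝓝 a) ∧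
      Tendsto (fun k => x (2 * k + 1)) atTop (𝓝 b) := by
  obtain ⟨N, a, b, ha, hb⟩ := hx.two_limits_aux h
  rcases Nat.even_or_odd' N with ⟨j, hj | hj⟩
  · refine ⟨a, b, ?_, ?_⟩
    · rw [← tendsto_add_atTop_iff_nat j]
      refine ha.congr (fun k => ?_)
      congr 1; omega
    · rw [← tendsto_add_atTop_iff_nat j]
      refine hb.congr (fun k => ?_)
      congr 1; omega
  · refine ⟨b, a, ?_, ?_⟩
    · rw [← tendsto_add_atTop_iff_nat (j + 1)]
      refine hb.congr (fun k => ?_)
      congr 1; omega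
    · rw [← tendsto_add_atTop_iff_nat j]
      refine ha.congr (fun k => ?_)
      congr 1; omega

theorem Sol.lim_eq (h : Par α A B) {x : ℕ → ℝ} (hx : Sol α A B x) {i : ℕ} {a b : ℝ}
    (ha : Tendsto (fun k => x (2 * k + i)) atTop (𝓝 a))
    (hb : Tendsto (fun k => x (2 * k + (i + 1))) atTop (𝓝 b)) :
    0 ≤ a ∧ a * (A + B * b + a) = α + a := by
  refine ⟨ge_of_tendsto' ha (fun k => hx.nonneg h _), ?_⟩
  have h1 : Tendsto (fun k => x (2 * k + (i + 2))) atTop (𝓝 a) := by
    have := (tendsto_add_atTop_iff_nat 1).2 ha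
    refine this.congr (fun k => ?_)
    congr 1; ring
  have h2 : Tendsto (fun k => x (2 * k + (i + 2)) *
      (A + B * x (2 * k + (i + 1)) + x (2 * k + i))) atTop (𝓝 (a * (A + B * b + a))) :=
    h1.mul ((tendsto_const_nhds.add (hb.const_mul B)).add ha)
  have h3 : Tendsto (fun k => α + x (2 * k + i)) atTop (𝓝 (α + a)) := ha.const_add α
  refine tendsto_nhds_unique h2 (h3.congr (fun k => ?_))
  have := hx.rec' (2 * k + i)
  have e1 : 2 * k + (i + 2) = 2 * k + i + 2 := by ring
  have e2 : 2 * k + (i + 1) = 2 * k + i + 1 := by ring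
  rw [e1, e2, this, div_mul_cancel₀ _ (hx.D_pos h _).ne']

/-- classification of the limits: `a` the limit of the terms `x (2k)`, `b` of `x (2k+1)` -/
theorem Sol.classify (h : Par α A B) {x : ℕ → ℝ} (hx : Sol α A B x) {a b : ℝ}
    (ha : Tendsto (fun k => x (2 * k)) atTop (𝓝 a))
    (hb : Tendsto (fun k => x (2 * k + 1)) atTop (𝓝 b)) :
    (a = xb α A B ∧ b = xb α A B) ∨ (a = mm α A B ∧ b = MM α A B) ∨
      (a = MM α A B ∧ b = mm α A B) := by
  obtain ⟨ha0, hea⟩ := hx.lim_eq h (i := 0) ha hb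
  have ha2 : Tendsto (fun k => x (2 * k + 2)) atTop (𝓝 a) := by
    have := (tendsto_add_atTop_iff_nat 1).2 ha
    refine this.congr (fun k => ?_)
    congr 1
  obtain ⟨hb0, heb⟩ := hx.lim_eq h (i := 1) hb ha2
  have hfac : (a - b) * (A + a + b - 1) = 0 := by linear_combination hea - heb
  rcases mul_eq_zero.1 hfac with hab | hab
  · left
    have hab : a = b := by linarith
    subst hab
    have := h.xb_unique ha0 hea
    exact ⟨this, this⟩
  · right
    have hs := h.mM_sum
    have hm := h.mM_mul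
    have hB := h.hB
    have hsum : a + b = mm α A B + MM α A B := by linarith
    have hprod : a * b = mm α A B * MM α A B := by
      have : (B - 1) * (a * b) = α := by
        have e : A = 1 - (a + b) := by linarith
        rw [e] at hea
        linear_combination hea
      have h1 : (B - 1) * (a * b - mm α A B * MM α A B) = 0 := by
        rw [mul_sub, this, hm]; ring
      rcases mul_eq_zero.1 h1 with h2 | h2
      · linarith
      · linarith
    have : (a - mm α A B) * (a - MM α A B) = 0 := by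
      have : b = mm α A B + MM α A B - a := by linarith
      rw [this] at hprod
      linear_combination -hprod
    rcases mul_eq_zero.1 this with h1 | h1
    · left; constructor <;> linarith
    · right; constructor <;> linarith

theorem Sol.tendsto_of (_h : Par α A B) {x : ℕ → ℝ} {c : ℝ}
    (ha : Tendsto (fun k => x (2 * k)) atTop (𝓝 c))
    (hb : Tendsto (fun k => x (2 * k + 1)) atTop (𝓝 c)) :
    Tendsto x atTop (𝓝 c) := by
  rw [Metric.tendsto_atTop] at ha hb ⊢
  intro ε hε
  obtain ⟨N1, h1⟩ := ha ε hε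
  obtain ⟨N2, h2⟩ := hb ε hε
  refine ⟨2 * (N1 + N2) + 1, fun n hn => ?_⟩
  rcases Nat.even_or_odd' n with ⟨j, rfl | rfl⟩
  · exact h1 j (by omega)
  · exact h2 j (by omega)

theorem sub_even {x : ℕ → ℝ} {c : ℝ} (hx : Tendsto x atTop (𝓝 c)) (i : ℕ) :
    Tendsto (fun k => x (2 * k + i)) atTop (𝓝 c) :=
  hx.comp (tendsto_atTop_atTop.2 (fun b => ⟨b, fun n hn => by omega⟩))

end Pool.Agent.N261.BC
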