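import Pool.Agent.N261.BC.Order

namespace Pool.Agent.N261.BC

open Filter Topology Set

variable {α A B : ℝ}

noncomputable def orb (α A B u v : ℝ) : ℕ → ℝ
  | 0 => u
  | 1 => v
  | (n + 2) => (α + orb α A B u v n) / (A + B * orb α A B u v (n + 1) + orb α A B u v n)

theorem orb_sol {u v : ℝ} (hu : 0 ≤ u) (hv : 0 ≤ v) (hD : 0 < A + B * v + u) :
    Sol α A B (orb α A B u v) := ⟨hu, hv, hD, fun _ => rfl⟩

theorem Sol.eq_orb {x : ℕ → ℝ} (hx : Sol α A B x) : x = orb α A B (x 0) (x 1) := by
  have : ∀ n, x n = orb α A B (x 0) (x 1) n ∧ x (n + 1) = orb α A B (x 0) (x 1) (n + 1) := by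
    intro n
    induction n with
    | zero => exact ⟨rfl, rfl⟩
    | succ n ih =>
      refine ⟨ih.2, ?_⟩
      rw [hx.rec' n, ih.1, ih.2]
      rfl
  funext n
  exact (this n).1

theorem orb_continuous (h : Par α A B) {X : Type*} [TopologicalSpace X] {p q : X → ℝ}
    (hp : Continuous p) (hq : Continuous q) (hp0 : ∀ t, 0 ≤ p t) (hq0 : ∀ t, 0 ≤ q t)
    (hD : ∀ t, 0 < A + B * q t + p t) (n : ℕ) :
    Continuous (fun t => orb α A B (p t) (q t) n) ∧
      Continuous (fun t => orb α A B (p t) (q t) (n + 1)) := by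
  induction n with
  | zero => exact ⟨hp, hq⟩
  | succ n ih =>
    refine ⟨ih.2, ?_⟩
    have e : (fun t => orb α A B (p t) (q t) (n + 2)) = fun t =>
        (α + orb α A B (p t) (q t) n) /
          (A + B * orb α A B (p t) (q t) (n + 1) + orb α A B (p t) (q t) n) := rfl
    rw [e]
    refine Continuous.div (continuous_const.add ih.1)
      ((continuous_const.add (continuous_const.mul ih.2)).add ih.1) (fun t => ?_)
    exact ((orb_sol (hp0 t) (hq0 t) (hD t)).D_pos h n).ne'

theorem isOpen_SL (h : Par α A B) {X : Type*} [TopologicalSpace X] {p q : X → ℝ}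
    (hp : Continuous p) (hq : Continuous q) (hp0 : ∀ t, 0 ≤ p t) (hq0 : ∀ t, 0 ≤ q t)
    (hD : ∀ t, 0 < A + B * q t + p t) : IsOpen {t | SL α A B (orb α A B (p t) (q t))} := by
  have e : {t | SL α A B (orb α A B (p t) (q t))} =
      ⋃ n, ({t | orb α A B (p t) (q t) (2 * n + 1) < xb α A B} ∩
        {t | xb α A B < orb α A B (p t) (q t) (2 * n + 2)}) := by
    ext t; simp [SL]
  rw [e]
  refine isOpen_iUnion (fun n => ?_)
  have hc := orb_continuous h hp hq hp0 hq0 hD (2 * n + 1)
  exact (isOpen_lt hc.1 continuous_const).inter (isOpen_lt continuous_const hc.2)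

theorem isOpen_SU (h : Par α A B) {X : Type*} [TopologicalSpace X] {p q : X → ℝ}
    (hp : Continuous p) (hq : Continuous q) (hp0 : ∀ t, 0 ≤ p t) (hq0 : ∀ t, 0 ≤ q t)
    (hD : ∀ t, 0 < A + B * q t + p t) : IsOpen {t | SU α A B (orb α A B (p t) (q t))} := by
  have e : {t | SU α A B (orb α A B (p t) (q t))} =
      ⋃ n, ({t | xb α A B < orb α A B (p t) (q t) (2 * n + 1)} ∩
        {t | orb α A B (p t) (q t) (2 * n + 2) < xb α A B}) := by
    ext t; simp [SU]
  rw [e]
  refine isOpen_iUnion (fun n => ?_)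
  have hc := orb_continuous h hp hq hp0 hq0 hD (2 * n + 1)
  exact (isOpen_lt continuous_const hc.1).inter (isOpen_lt hc.2 continuous_const)

theorem zero_SL (h : Par α A B) (haA : α ≤ A) {x : ℕ → ℝ} (hx : Sol α A B x) (h1 : x 1 = 0) :
    SL α A B x := by
  have hB := h.hB
  have hy := hx.shift h 1
  have hg : ∀ n, α ≤ A + B * x (n + 1) := fun n => by
    have := mul_nonneg (by linarith : (0 : ℝ) ≤ B) (hx.nonneg h (n + 1))
    linarith
  have hy0 : x (0 + 1) ≤ x 0 := by
    rw [Nat.zero_add, h1]; exact hx.nonneg h 0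
  have hy1 : x 1 ≤ x (1 + 1) := by
    rw [h1]; exact hx.nonneg h 2
  have hc := hx.cmp' h hy hg hy0 hy1
  rcases hx.tri h with ht | ht | ht
  · exfalso
    have hty : Tendsto (fun n => x (n + 1)) atTop (𝓝 (xb α A B)) :=
      (tendsto_add_atTop_iff_nat 1).2 ht
    have := (noSE h hy hx hty ht hy0 hy1).2
    have h2 : x (1 + 1) = x 1 := this
    have h3 := hx.pos h 0
    rw [h1] at h2
    have : x (0 + 2) = x (1 + 1) := rfl
    linarith
  · exact ht
  · exfalso
    have h2 := hx.conv_SU h ht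
    have := le_of_tendsto_of_tendsto' h2.1 h2.2 (fun k => (hc k).1)
    linarith [h.m_lt_M]

/-- existence of a point of the separatrix over every `u ≥ 0` -/
theorem exists_v (h : Par α A B) {u : ℝ} (hu : 0 ≤ u) :
    ∃ v, 0 < v ∧ Tendsto (orb α A B u v) atTop (𝓝 (xb α A B)) := by
  have hB := h.hB
  have ha := h.ha
  have hA := h.hA0
  have hxb := h.xb_pos
  have hml := h.m_lt_xb_lt_M
  set v0 : ℝ := max 0 ((α - A) / B) with hv0
  have hv00 : 0 ≤ v0 := le_max_left _ _
  have hBv0 : α ≤ A + B * v0 := by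
    have : (α - A) / B ≤ v0 := le_max_right _ _
    rw [div_le_iff₀ (by linarith)] at this
    linarith
  have hD : ∀ v, v0 ≤ v → 0 < A + B * v + u := by
    intro v hv
    have : B * v0 ≤ B * v := mul_le_mul_of_nonneg_left hv (by linarith)
    linarith
  have hSL0 : SL α A B (orb α A B u v0) := by
    have hs := orb_sol (α := α) hu hv00 (hD v0 le_rfl)
    rcases le_or_gt α A with hc | hc
    · apply zero_SL h hc hs
      show v0 = 0
      rw [hv0]
      apply max_eq_left
      apply div_nonpos_of_nonpos_of_nonneg <;> linarith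
    · have e : A + B * v0 = α := by
        have : v0 = (α - A) / B := by
          rw [hv0]; apply max_eq_right
          apply div_nonneg <;> linarith
        rw [this]; field_simp; ring
      have h1 := hs.bad_next h (n := 0) (by show A + B * v0 ≤ α; linarith)
      refine ⟨0, ?_, ?_⟩
      · show v0 < _
        have := bad_lt_m h (t := v0) e.le
        linarith
      · show _ < orb α A B u v0 (0 + 2)
        have := h.M_lt_one
        linarith
  set v1 : ℝ := v0 + xb α A B + (α + u) / xb α A B with hv1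
  have hq : 0 < (α + u) / xb α A B := div_pos (by linarith) hxb
  have hv01 : v0 ≤ v1 := by linarith
  have hSU1 : SU α A B (orb α A B u v1) := by
    refine ⟨0, ?_, ?_⟩
    · show _ < v1
      linarith
    · show (α + u) / (A + B * v1 + u) < _
      rw [div_lt_iff₀ (hD v1 hv01)]
      have h1 : (α + u) / xb α A B * xb α A B = α + u := div_mul_cancel₀ _ hxb.ne'
      have h2 : (α + u) / xb α A B + xb α A B ≤ B * v1 := by nlinarith
      nlinarith
  by_contra hcon
  push Not at hcon
  have hexcl : ∀ t : Icc v0 v1, SL α A B (orb α A B u t) ∨ SU α A B (orb α A B u t) := by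
    intro t
    have hs := orb_sol (α := α) hu (hv00.trans t.2.1) (hD t t.2.1)
    rcases hs.tri h with ht | ht | ht
    · exfalso
      rcases eq_or_lt_of_le (hv00.trans t.2.1) with h0 | h0
      · -- t = 0
        have hv0z : v0 = 0 := le_antisymm (h0 ▸ t.2.1) hv00
        have : (t : ℝ) = v0 := h0.symm.trans hv0z.symm
        rw [this] at ht
        exact (orb_sol (α := α) hu hv00 (hD v0 le_rfl)).not_SL_of_tendsto h ht hSL0
      · exact hcon t h0 ht
    · exact Or.inl ht
    · exact Or.inr ht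
  have hcl : IsClopen {t : Icc v0 v1 | SL α A B (orb α A B u t)} := by
    constructor
    · rw [← isOpen_compl_iff]
      have e : {t : Icc v0 v1 | SL α A B (orb α A B u t)}ᶜ =
          {t : Icc v0 v1 | SU α A B (orb α A B u t)} := by
        ext t
        constructor
        · intro ht
          exact (hexcl t).resolve_left ht
        · intro ht ht2
          exact (orb_sol (α := α) hu (hv00.trans t.2.1) (hD t t.2.1)).not_both h ht2 ht
      rw [e]
      exact isOpen_SU h continuous_const continuous_subtype_val (fun _ => hu)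
        (fun t => hv00.trans t.2.1) (fun t => hD t t.2.1)
    · exact isOpen_SL h continuous_const continuous_subtype_val (fun _ => hu)
        (fun t => hv00.trans t.2.1) (fun t => hD t t.2.1)
  have : PreconnectedSpace (Icc v0 v1) := Subtype.preconnectedSpace isPreconnected_Icc
  rcases isClopen_iff.1 hcl with h1 | h1
  · have : (⟨v0, le_rfl, hv01⟩ : Icc v0 v1) ∈ {t : Icc v0 v1 | SL α A B (orb α A B u t)} := hSL0
    rw [h1] at this
    exact this
  · have : (⟨v1, hv01, le_rfl⟩ : Icc v0 v1) ∈ {t : Icc v0 v1 | SL α A B (orb α A B u t)} := by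
      rw [h1]; trivial
    exact (orb_sol (α := α) hu (hv00.trans hv01) (hD v1 hv01)).not_both h this hSU1

/-- the defining property of the separatrix function -/
def IsPhi (α A B : ℝ) (φ : ℝ → ℝ) : Prop :=
  ∀ u, 0 ≤ u → 0 < φ u ∧ Tendsto (orb α A B u (φ u)) atTop (𝓝 (xb α A B))

theorem exists_phi (h : Par α A B) : ∃ φ, IsPhi α A B φ := by
  have : ∀ u : ℝ, ∃ v, 0 ≤ u → (0 < v ∧ Tendsto (orb α A B u v) atTop (𝓝 (xb α A B))) := by
    intro u
    by_cases hu : 0 ≤ u
    · obtain ⟨v, hv⟩ := exists_v h hu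
      exact ⟨v, fun _ => hv⟩
    · exact ⟨0, fun hc => absurd hc hu⟩
  choose φ hφ using this
  exact ⟨φ, hφ⟩

variable {φ : ℝ → ℝ}

theorem adm (h : Par α A B) {u v : ℝ} (hu : 0 ≤ u) (hv : 0 < v) : 0 < A + B * v + u := by
  have := mul_pos (by linarith [h.hB] : (0 : ℝ) < B) hv
  linarith [h.hA0]

theorem IsPhi.sol (h : Par α A B) (hφ : IsPhi α A B φ) {u : ℝ} (hu : 0 ≤ u) :
    Sol α A B (orb α A B u (φ u)) :=
  orb_sol hu (hφ u hu).1.le (adm h hu (hφ u hu).1)

/-- a solution converging to the equilibrium starts on the graph -/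
theorem IsPhi.unique (h : Par α A B) (hφ : IsPhi α A B φ) {x : ℕ → ℝ} (hx : Sol α A B x)
    (hl : Tendsto x atTop (𝓝 (xb α A B))) : x 1 = φ (x 0) := by
  have hu := hx.nonneg h 0
  have hs := hφ.sol h hu
  rcases le_total (x 1) (φ (x 0)) with hc | hc
  · exact (noSE h hs hx (hφ _ hu).2 hl le_rfl hc).2.symm
  · exact (noSE h hx hs hl (hφ _ hu).2 le_rfl hc).2

theorem IsPhi.on (hφ : IsPhi α A B φ) (h : Par α A B) {x : ℕ → ℝ} (hx : Sol α A B x)
    (he : x 1 = φ (x 0)) : Tendsto x atTop (𝓝 (xb α A B)) := by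
  have := (hφ _ (hx.nonneg h 0)).2
  rw [hx.eq_orb, he]
  exact this

theorem IsPhi.lower (h : Par α A B) (hφ : IsPhi α A B φ) {x : ℕ → ℝ} (hx : Sol α A B x)
    (hl : x 1 < φ (x 0)) : SL α A B x :=
  (hφ.sol h (hx.nonneg h 0)).below h hx (hφ _ (hx.nonneg h 0)).2 rfl hl

theorem IsPhi.upper (h : Par α A B) (hφ : IsPhi α A B φ) {x : ℕ → ℝ} (hx : Sol α A B x)
    (hl : φ (x 0) < x 1) : SU α A B x :=
  (hφ.sol h (hx.nonneg h 0)).above h hx (hφ _ (hx.nonneg h 0)).2 rfl hl

theorem IsPhi.lt_of_SL (h : Par α A B) (hφ : IsPhi α A B φ) {x : ℕ → ℝ} (hx : Sol α A B x)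
    (hs : SL α A B x) : x 1 < φ (x 0) := by
  by_contra hc
  rcases eq_or_lt_of_le (not_lt.1 hc) with h1 | h1
  · exact hx.not_SL_of_tendsto h (hφ.on h hx h1.symm) hs
  · exact hx.not_both h hs (hφ.upper h hx h1)

theorem IsPhi.gt_of_SU (h : Par α A B) (hφ : IsPhi α A B φ) {x : ℕ → ℝ} (hx : Sol α A B x)
    (hs : SU α A B x) : φ (x 0) < x 1 := by
  by_contra hc
  rcases eq_or_lt_of_le (not_lt.1 hc) with h1 | h1
  · exact hx.not_SU_of_tendsto h (hφ.on h hx h1) hs
  · exact hx.not_both h (hφ.lower h hx h1) hs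

theorem IsPhi.strictMono (h : Par α A B) (hφ : IsPhi α A B φ) : StrictMonoOn φ (Ici 0) := by
  intro u hu u' hu' huu
  by_contra hc
  have hc := not_lt.1 hc
  have := noSE h (hφ.sol h hu) (hφ.sol h hu') (hφ u hu).2 (hφ u' hu').2 huu.le hc
  have h1 : u = u' := this.1
  linarith

theorem IsPhi.fix (h : Par α A B) (hφ : IsPhi α A B φ) : φ (xb α A B) = xb α A B :=
  (hφ.unique h (Sol.const h) tendsto_const_nhds).symm

/-- along the separatrix the solution is the iteration of `φ` -/
theorem IsPhi.iter (h : Par α A B) (hφ : IsPhi α A B φ) {x : ℕ → ℝ} (hx : Sol α A B x)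
    (hl : Tendsto x atTop (𝓝 (xb α A B))) (n : ℕ) : x (n + 1) = φ (x n) := by
  have := hφ.unique h (hx.shift h n) ((tendsto_add_atTop_iff_nat n).2 hl)
  simp only [Nat.zero_add] at this
  rw [Nat.add_comm n 1]
  exact this

theorem IsPhi.func (h : Par α A B) (hφ : IsPhi α A B φ) {u : ℝ} (hu : 0 ≤ u) :
    φ (φ u) = (α + u) / (A + B * φ u + u) := by
  have := hφ.iter h (hφ.sol h hu) (hφ u hu).2 1
  exact this.symm

theorem IsPhi.continuous (h : Par α A B) (hφ : IsPhi α A B φ) : ContinuousOn φ (Ici 0) := by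
  rw [continuousOn_iff_continuous_domRestrict]
  rw [continuous_iff_continuousAt]
  rintro ⟨u, hu⟩
  have hu' : 0 ≤ u := hu
  have hpos := (hφ u hu').1
  refine tendsto_order.2 ⟨fun a ha => ?_, fun b hb => ?_⟩
  · -- a < φ u
    have ha' : a < φ u := ha
    set v := max a (φ u / 2) with hv
    have hv0 : 0 < v := lt_of_lt_of_le (by linarith) (le_max_right _ _)
    have hv1 : v < φ u := max_lt ha' (by linarith)
    have ho : IsOpen {t : Ici (0 : ℝ) | SL α A B (orb α A B t v)} :=
      isOpen_SL h continuous_subtype_val continuous_const (fun t => t.2) (fun _ => hv0.le)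
        (fun t => adm h t.2 hv0)
    have hmem : (⟨u, hu⟩ : Ici (0 : ℝ)) ∈ {t : Ici (0 : ℝ) | SL α A B (orb α A B t v)} :=
      hφ.lower h (orb_sol hu' hv0.le (adm h hu' hv0)) hv1
    filter_upwards [ho.mem_nhds hmem] with t ht
    have := hφ.lt_of_SL h (orb_sol t.2 hv0.le (adm h t.2 hv0)) ht
    have h2 : v < φ t := this
    exact lt_of_le_of_lt (le_max_left _ _) h2
  · have hb' : φ u < b := hb
    have hb0 : 0 < b := by linarith
    have ho : IsOpen {t : Ici (0 : ℝ) | SU α A B (orb α A B t b)} :=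
      isOpen_SU h continuous_subtype_val continuous_const (fun t => t.2) (fun _ => hb0.le)
        (fun t => adm h t.2 hb0)
    have hmem : (⟨u, hu⟩ : Ici (0 : ℝ)) ∈ {t : Ici (0 : ℝ) | SU α A B (orb α A B t b)} :=
      hφ.upper h (orb_sol hu' hb0.le (adm h hu' hb0)) hb'
    filter_upwards [ho.mem_nhds hmem] with t ht
    exact hφ.gt_of_SU h (orb_sol t.2 hb0.le (adm h t.2 hb0)) ht

theorem IsPhi.bounds_lt (h : Par α A B) (hφ : IsPhi α A B φ) {u : ℝ} (hu : 0 ≤ u)
    (hlt : u < xb α A B) : u < φ u ∧ φ u < xb α A B := by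
  have hmono := hφ.strictMono h
  refine ⟨?_, ?_⟩
  · by_contra hc
    have hc := not_lt.1 hc
    have hs := hφ.sol h hu
    have hl := (hφ u hu).2
    have hdec : ∀ n, orb α A B u (φ u) (n + 1) ≤ orb α A B u (φ u) n := by
      intro n
      induction n with
      | zero => exact hc
      | succ n ih =>
        rw [hφ.iter h hs hl (n + 1), hφ.iter h hs hl n]
        exact hmono.monotoneOn (mem_Ici.2 (by
          rw [← hφ.iter h hs hl n]; exact hs.nonneg h _)) (mem_Ici.2 (hs.nonneg h _)) (by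
          rw [← hφ.iter h hs hl n]; exact ih)
    have hanti : Antitone (orb α A B u (φ u)) := antitone_nat_of_succ_le hdec
    have := le_of_tendsto' hl (fun n => hanti (Nat.zero_le n))
    have h2 : orb α A B u (φ u) 0 = u := rfl
    linarith
  · have := hmono (mem_Ici.2 hu) (mem_Ici.2 h.xb_pos.le) hlt
    rwa [hφ.fix h] at this

theorem IsPhi.bounds_gt (h : Par α A B) (hφ : IsPhi α A B φ) {u : ℝ}
    (hlt : xb α A B < u) : xb α A B < φ u ∧ φ u < u := by
  have hu : 0 ≤ u := by linarith [h.xb_pos]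
  have hmono := hφ.strictMono h
  refine ⟨?_, ?_⟩
  · have := hmono (mem_Ici.2 h.xb_pos.le) (mem_Ici.2 hu) hlt
    rwa [hφ.fix h] at this
  · by_contra hc
    have hc := not_lt.1 hc
    have hs := hφ.sol h hu
    have hl := (hφ u hu).2
    have hinc : ∀ n, orb α A B u (φ u) n ≤ orb α A B u (φ u) (n + 1) := by
      intro n
      induction n with
      | zero => exact hc
      | succ n ih =>
        rw [hφ.iter h hs hl (n + 1), hφ.iter h hs hl n]
        exact hmono.monotoneOn (mem_Ici.2 (hs.nonneg h _)) (mem_Ici.2 (by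
          rw [← hφ.iter h hs hl n]; exact hs.nonneg h _)) (by
          rw [← hφ.iter h hs hl n]; exact ih)
    have hmon : Monotone (orb α A B u (φ u)) := monotone_nat_of_le_succ hinc
    have := ge_of_tendsto' hl (fun n => hmon (Nat.zero_le n))
    have h2 : orb α A B u (φ u) 0 = u := rfl
    linarith

theorem IsPhi.lt_one (h : Par α A B) (hφ : IsPhi α A B φ) {u : ℝ} (hu : 0 ≤ u) :
    φ (φ u) < 1 := by
  rw [hφ.func h hu, div_lt_one (adm h hu (hφ u hu).1)]
  have := (hφ.sol h hu).good_of_tendsto h (hφ u hu).2 0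
  have h2 : orb α A B u (φ u) (0 + 1) = φ u := rfl
  rw [h2] at this
  linarith

/-- the horizontal asymptote -/
theorem IsPhi.asym (h : Par α A B) (hφ : IsPhi α A B φ) :
    ∃ L, xb α A B < L ∧ φ L = 1 ∧ (∀ u, 0 ≤ u → φ u < L) ∧ Tendsto φ atTop (𝓝 L) := by
  have hmono := hφ.strictMono h
  have hcont := hφ.continuous h
  have hxb := h.xb_pos
  have hA := h.hA0
  have hB := h.hB
  have ha := h.ha
  have hx1 : xb α A B < 1 := by linarith [h.m_lt_xb_lt_M.2, h.M_lt_one]
  -- φ takes a value ≥ 1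
  have hex : ∃ u1, 0 ≤ u1 ∧ 1 ≤ φ u1 := by
    by_contra hcon
    push Not at hcon
    have hφ1 := hcon 1 zero_le_one
    set c := φ 1 with hc
    have hb : ∀ u, 0 ≤ u → (α + u) ≤ c * (A + B + u) := by
      intro u hu
      have h1 := hφ.func h hu
      have h2 : φ (φ u) ≤ c := hmono.monotoneOn (mem_Ici.2 (hφ u hu).1.le)
        (mem_Ici.2 zero_le_one) (hcon u hu).le
      have h3 : (α + u) / (A + B * φ u + u) ≤ c := by rw [← h1]; exact h2
      rw [div_le_iff₀ (adm h hu (hφ u hu).1)] at h3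
      have h4 := hcon u hu
      have h5 : 0 < c := (hφ 1 zero_le_one).1
      have h6 : c * (A + B * φ u + u) ≤ c * (A + B + u) := by
        apply mul_le_mul_of_nonneg_left _ h5.le
        nlinarith
      linarith
    have hc1 : 0 < 1 - c := by linarith
    have h5 : 0 < c := (hφ 1 zero_le_one).1
    have h6 := hb (c * (A + B) / (1 - c)) (by positivity)
    have h7 : (1 - c) * (c * (A + B) / (1 - c)) = c * (A + B) := by field_simp
    nlinarith
  obtain ⟨u1, hu1, hφu1⟩ := hex
  have hu1x : xb α A B ≤ u1 := by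
    by_contra hc
    have hc := not_le.1 hc
    have := (hφ.bounds_lt h hu1 hc).2
    linarith
  have hIV := intermediate_value_Icc hu1x (hcont.mono (fun t ht => le_trans hxb.le ht.1))
  have hmem : (1 : ℝ) ∈ Icc (φ (xb α A B)) (φ u1) := ⟨by rw [hφ.fix h]; linarith, hφu1⟩
  obtain ⟨L, hL, hφL⟩ := hIV hmem
  have hL0 : 0 ≤ L := le_trans hxb.le hL.1
  have hLx : xb α A B < L := by
    rcases eq_or_lt_of_le hL.1 with h1 | h1
    · rw [← h1, hφ.fix h] at hφL
      linarith
    · exact h1
  have hlt : ∀ u, 0 ≤ u → φ u < L := by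
    intro u hu
    by_contra hc
    have hc := not_lt.1 hc
    have h1 := hmono.monotoneOn (mem_Ici.2 hL0) (mem_Ici.2 (hφ u hu).1.le) hc
    have h2 := hφ.lt_one h hu
    linarith
  refine ⟨L, hLx, hφL, hlt, ?_⟩
  -- limit
  set f : ℝ → ℝ := fun t => φ (max t 0) with hf
  have hfm : Monotone f := by
    intro s t hst
    exact hmono.monotoneOn (mem_Ici.2 (le_max_right _ _)) (mem_Ici.2 (le_max_right _ _))
      (max_le_max hst le_rfl)
  have hfb : BddAbove (range f) := ⟨L, by rintro _ ⟨t, rfl⟩; exact (hlt _ (le_max_right _ _)).le⟩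
  have hft := tendsto_atTop_ciSup hfm hfb
  set L' := ⨆ t, f t with hL'
  have hL'0 : 0 ≤ L' := le_trans (hφ _ (le_max_right 0 0)).1.le (le_ciSup hfb 0)
  have hff : Tendsto φ atTop (𝓝 L') := by
    refine hft.congr' ?_
    filter_upwards [eventually_ge_atTop (0 : ℝ)] with t ht
    simp only [hf, max_eq_left ht]
  have h1 : Tendsto (fun u => φ (φ u)) atTop (𝓝 (φ L')) := by
    have hw : Tendsto φ atTop (𝓝[Ici 0] L') := by
      rw [tendsto_nhdsWithin_iff]
      refine ⟨hff, ?_⟩
      filter_upwards [eventually_ge_atTop (0 : ℝ)] with t ht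
      exact (hφ t ht).1.le
    exact (hcont L' hL'0).tendsto.comp hw
  have h2 : Tendsto (fun u => φ (φ u)) atTop (𝓝 1) := by
    have h3 : Tendsto (fun u : ℝ => (α / u + 1) / ((A + B * φ u) / u + 1)) atTop
        (𝓝 ((0 + 1) / (0 + 1))) := by
      refine Tendsto.div ?_ ?_ (by norm_num)
      · exact (tendsto_const_nhds.div_atTop tendsto_id).add_const 1
      · exact (((hff.const_mul B).const_add A).div_atTop tendsto_id).add_const 1
    rw [zero_add, div_one] at h3
    refine h3.congr' ?_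
    filter_upwards [eventually_gt_atTop (0 : ℝ)] with t ht
    rw [hφ.func h ht.le]
    have hne : A + B * φ t + t ≠ 0 := (adm h ht.le (hφ t ht.le).1).ne'
    have e1 : α / t + 1 = (α + t) / t := by field_simp
    have e2 : (A + B * φ t) / t + 1 = (A + B * φ t + t) / t := by field_simp
    rw [e1, e2, div_div_div_cancel_right₀ ht.ne']
  have h3 := tendsto_nhds_unique h1 h2
  have h4 : L' = L := by
    have := hmono.injOn (mem_Ici.2 hL'0) (mem_Ici.2 hL0) (h3.trans hφL.symm)
    exact this
  rw [← h4]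
  exact hff

/-- uniqueness of the monotone solution of the functional equation -/
theorem IsPhi.unique_mono (h : Par α A B) (hφ : IsPhi α A B φ) {ψ : ℝ → ℝ}
    (hm : MonotoneOn ψ (Ici 0)) (hp : ∀ u, 0 ≤ u → 0 < ψ u) (hfix : ψ (xb α A B) = xb α A B)
    (hfe : ∀ u, 0 ≤ u → ψ (ψ u) = (α + u) / (A + B * ψ u + u)) {u : ℝ} (hu : 0 ≤ u) :
    ψ u = φ u := by
  set x : ℕ → ℝ := fun n => ψ^[n] u with hx
  have hnn : ∀ n, 0 ≤ x n := by
    intro n
    induction n with
    | zero => exact hu
    | succ n ih =>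
      have : x (n + 1) = ψ (x n) := Function.iterate_succ_apply' _ _ _
      rw [this]; exact (hp _ ih).le
  have hstep : ∀ n, x (n + 1) = ψ (x n) := fun n => Function.iterate_succ_apply' _ _ _
  have hsol : Sol α A B x := by
    refine ⟨hu, hnn 1, ?_, ?_⟩
    · have : x 1 = ψ u := rfl
      rw [this]
      exact adm h hu (hp u hu)
    · intro n
      have e1 : x (n + 2) = ψ (x (n + 1)) := hstep (n + 1)
      rw [e1, hstep n]
      exact hfe _ (hnn n)
  obtain ⟨a, b, ha, hb⟩ := hsol.two_limits h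
  have hml := h.m_lt_xb_lt_M
  have hlim : Tendsto x atTop (𝓝 (xb α A B)) := by
    rcases le_total u (xb α A B) with hc | hc
    · have hle : ∀ n, x n ≤ xb α A B := by
        intro n
        induction n with
        | zero => exact hc
        | succ n ih =>
          rw [hstep n]
          have := hm (mem_Ici.2 (hnn n)) (mem_Ici.2 h.xb_pos.le) ih
          rwa [hfix] at this
      have hale := le_of_tendsto' ha (fun k => hle _)
      have hble := le_of_tendsto' hb (fun k => hle _)
      rcases hsol.classify h ha hb with ⟨h3, h4⟩ | ⟨h3, h4⟩ | ⟨h3, h4⟩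
      · rw [h3] at ha; rw [h4] at hb
        exact Sol.tendsto_of h ha hb
      · exfalso; linarith
      · exfalso; linarith
    · have hle : ∀ n, xb α A B ≤ x n := by
        intro n
        induction n with
        | zero => exact hc
        | succ n ih =>
          rw [hstep n]
          have := hm (mem_Ici.2 h.xb_pos.le) (mem_Ici.2 (hnn n)) ih
          rwa [hfix] at this
      have hale := ge_of_tendsto' ha (fun k => hle _)
      have hble := ge_of_tendsto' hb (fun k => hle _)
      rcases hsol.classify h ha hb with ⟨h3, h4⟩ | ⟨h3, h4⟩ | ⟨h3, h4⟩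
      · rw [h3] at ha; rw [h4] at hb
        exact Sol.tendsto_of h ha hb
      · exfalso; linarith
      · exfalso; linarith
  exact hφ.unique h hsol hlim

end Pool.Agent.N261.BC
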