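import Pool.Agent.N261.BC.Basic

namespace Pool.Agent.N261.BC

open Filter Topology

variable {α A B : ℝ}

theorem Sol.aux (h : Par α A B) {x : ℕ → ℝ} (hx : Sol α A B x) (n : ℕ) :
    0 ≤ x n ∧ 0 ≤ x (n + 1) ∧ 0 < A + B * x (n + 1) + x n := by
  induction n with
  | zero => exact ⟨hx.1, hx.2.1, hx.2.2.1⟩
  | succ n ih =>
    have h0 := h.ha
    have h1 := h.hB
    have h2 := h.hA0
    have hp : 0 < x (n + 2) := by
      rw [hx.2.2.2 n]
      exact div_pos (by linarith [ih.1]) ih.2.2
    refine ⟨ih.2.1, hp.le, ?_⟩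
    have : 0 < B * x (n + 1 + 1) := mul_pos (by linarith) hp
    linarith [ih.2.1]

theorem Sol.nonneg (h : Par α A B) {x : ℕ → ℝ} (hx : Sol α A B x) (n : ℕ) : 0 ≤ x n :=
  (hx.aux h n).1

theorem Sol.D_pos (h : Par α A B) {x : ℕ → ℝ} (hx : Sol α A B x) (n : ℕ) :
    0 < A + B * x (n + 1) + x n := (hx.aux h n).2.2

theorem Sol.pos (h : Par α A B) {x : ℕ → ℝ} (hx : Sol α A B x) (n : ℕ) : 0 < x (n + 2) := by
  rw [hx.2.2.2 n]
  exact div_pos (by linarith [hx.nonneg h n, h.ha]) (hx.D_pos h n)

theorem Sol.rec' {x : ℕ → ℝ} (hx : Sol α A B x) (n : ℕ) :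
    x (n + 2) = (α + x n) / (A + B * x (n + 1) + x n) := hx.2.2.2 n

theorem Sol.shift (h : Par α A B) {x : ℕ → ℝ} (hx : Sol α A B x) (k : ℕ) :
    Sol α A B (fun n => x (n + k)) := by
  refine ⟨hx.nonneg h _, hx.nonneg h _, ?_, ?_⟩
  · have := hx.D_pos h k
    simpa [Nat.add_comm] using this
  · intro n
    have := hx.rec' (n + k)
    have e1 : n + k + 2 = n + 2 + k := by ring
    have e2 : n + k + 1 = n + 1 + k := by ring
    rw [e1, e2] at this
    exact this

theorem Sol.const (h : Par α A B) : Sol α A B (fun _ => xb α A B) := by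
  have h1 := h.xb_pos
  have h2 := h.hB
  have h3 := h.hA0
  have hD : 0 < A + B * xb α A B + xb α A B := by
    have : 0 < B * xb α A B := mul_pos (by linarith) h1
    linarith
  refine ⟨h1.le, h1.le, hD, ?_⟩
  intro n
  show xb α A B = _
  rw [eq_div_iff hD.ne']
  exact h.xb_eq

/-- comparison step for two solutions -/
theorem Sol.cmp_step (h : Par α A B) {x y : ℕ → ℝ} (hx : Sol α A B x) (hy : Sol α A B y)
    {i j : ℕ} (h1 : x i ≤ y j) (h2 : y (j + 1) ≤ x (i + 1)) (hg : α ≤ A + B * x (i + 1)) :
    x (i + 2) ≤ y (j + 2) := by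
  rw [hx.rec' i, hy.rec' j]
  exact step_mono h (hx.nonneg h i) (hy.D_pos h j) h1 h2 (hx.D_pos h i) hg

/-- if `x (n+1)` is not good then the next term is at least one -/
theorem Sol.bad_next (h : Par α A B) {x : ℕ → ℝ} (hx : Sol α A B x) {n : ℕ}
    (hb : A + B * x (n + 1) ≤ α) : 1 ≤ x (n + 2) := by
  rw [hx.rec' n, le_div_iff₀ (hx.D_pos h n)]
  linarith

theorem Sol.good_next (h : Par α A B) {x : ℕ → ℝ} (hx : Sol α A B x) {n : ℕ}
    (hb : α ≤ A + B * x (n + 1)) : x (n + 2) ≤ 1 := by
  rw [hx.rec' n, div_le_iff₀ (hx.D_pos h n)]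
  linarith

/-- the region `x_n ≤ m`, `x_{n+1} ≥ M` is invariant -/
theorem Sol.absorb (h : Par α A B) {x : ℕ → ℝ} (hx : Sol α A B x) {n : ℕ}
    (h1 : x n ≤ mm α A B) (h2 : MM α A B ≤ x (n + 1)) (k : ℕ) :
    x (n + 2 * k) ≤ mm α A B ∧ MM α A B ≤ x (n + 2 * k + 1) := by
  have hB := h.hB
  have hm := h.m_pos
  have hM := h.M_pos
  have hA := h.hA0
  have hDm : 0 < A + B * MM α A B + mm α A B := by
    have : 0 < B * MM α A B := mul_pos (by linarith) hM
    linarith
  have hDM : 0 < A + B * mm α A B + MM α A B := by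
    have : 0 < B * mm α A B := mul_pos (by linarith) hm
    linarith
  induction k with
  | zero => exact ⟨h1, h2⟩
  | succ k ih =>
    have s1 : x (n + 2 * k + 2) ≤ mm α A B := by
      rw [hx.rec']
      have e : mm α A B = (α + mm α A B) / (A + B * MM α A B + mm α A B) := by
        rw [eq_div_iff hDm.ne']; exact h.cyc1
      rw [e]
      refine step_mono h (hx.nonneg h _) hDm ih.1 ih.2 (hx.D_pos h _) ?_
      have := h.M_good
      nlinarith [ih.2]
    have s2 : MM α A B ≤ x (n + 2 * k + 3) := by
      have : x (n + 2 * k + 3) = (α + x (n + 2 * k + 1)) /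
        (A + B * x (n + 2 * k + 2) + x (n + 2 * k + 1)) := hx.rec' (n + 2 * k + 1)
      rw [this]
      have e : MM α A B = (α + MM α A B) / (A + B * mm α A B + MM α A B) := by
        rw [eq_div_iff hDM.ne']; exact h.cyc2
      rw [e]
      refine step_mono h hM.le ?_ ih.2 s1 hDM h.m_good.le
      exact hx.D_pos h (n + 2 * k + 1)
    have e1 : n + 2 * (k + 1) = n + 2 * k + 2 := by ring
    rw [e1]
    exact ⟨s1, s2⟩

/-- a bad term is below `m` -/
theorem bad_lt_m (h : Par α A B) {t : ℝ} (hb : A + B * t ≤ α) : t < mm α A B := by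
  have h1 := h.m_good
  have h2 := h.hB
  by_contra hc
  have hc := not_lt.1 hc
  nlinarith

theorem Sol.good_step (h : Par α A B) {x : ℕ → ℝ} (hx : Sol α A B x) {n : ℕ}
    (h1 : α ≤ A + B * x n) (h2 : x (n + 1) ≤ 1) : α ≤ A + B * x (n + 2) := by
  have ha := h.ha
  have hB := h.hB
  have hA := h.hA0
  have hA1 := h.hA1
  have hp := hx.nonneg h n
  have hq := hx.nonneg h (n + 1)
  have hD := hx.D_pos h n
  have haB := h.a_lt_B
  rw [hx.rec' n]
  set p := x n
  set q := x (n + 1)
  have key : 0 ≤ A * (A + B + p) - α * (A + p) + B * p := by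
    rcases le_total α A with hc | hc
    · have t1 : 0 ≤ (A - α) * (A + p) := mul_nonneg (by linarith) (by linarith)
      nlinarith
    · -- α ≥ A
      have hs : (α - A) / B ≤ p := by
        rw [div_le_iff₀ (by linarith)]; linarith
      set s := (α - A) / B with hsd
      have hBs : B * s = α - A := by rw [hsd]; field_simp
      have hs0 : 0 ≤ s := div_nonneg (by linarith) (by linarith)
      have hsm : s < mm α A B := bad_lt_m h (by rw [hBs]; linarith)
      have hs1 : s < 1 - A := by
        have := h.mM_sum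
        have := h.M_pos
        linarith
      have t1 : 0 ≤ (p - s) * (A + B - α) := mul_nonneg (by linarith) (by linarith)
      have t2 : 0 ≤ A * (A + B + s - 1) := mul_nonneg hA (by linarith)
      have t3 : 0 ≤ α * (1 - A - s) := mul_nonneg ha.le (by linarith)
      nlinarith
  have hle : A + B * q + p ≤ A + B + p := by nlinarith
  have : α * (A + B * q + p) ≤ A * (A + B * q + p) + B * (α + p) := by
    rcases le_total α A with hc | hc
    · have : 0 ≤ (A - α) * (A + B * q + p) := mul_nonneg (by linarith) hD.le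
      have : 0 ≤ B * (α + p) := by positivity
      linarith
    · have t : 0 ≤ (α - A) * (B * (1 - q)) :=
        mul_nonneg (by linarith) (mul_nonneg (by linarith) (by linarith))
      nlinarith
  have e : A + B * ((α + p) / (A + B * q + p)) =
      (A * (A + B * q + p) + B * (α + p)) / (A + B * q + p) := by
    field_simp
  rw [e, le_div_iff₀ hD]
  exact this

theorem Sol.good_forever (h : Par α A B) {x : ℕ → ℝ} (hx : Sol α A B x) {n : ℕ}
    (h1 : α ≤ A + B * x (n + 1)) (h2 : α ≤ A + B * x (n + 2)) (k : ℕ) :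
    α ≤ A + B * x (n + 1 + k) ∧ α ≤ A + B * x (n + 2 + k) := by
  induction k with
  | zero => exact ⟨h1, h2⟩
  | succ k ih =>
    have e1 : n + 1 + (k + 1) = n + 2 + k := by ring
    rw [e1]
    refine ⟨ih.2, ?_⟩
    have e2 : n + 2 + (k + 1) = n + 1 + k + 2 := by ring
    rw [e2]
    refine hx.good_step h ih.1 ?_
    have := hx.good_next h (n := n + k) (by
      have e3 : n + k + 1 = n + 1 + k := by ring
      rw [e3]; exact ih.1)
    have e4 : n + 1 + k + 1 = n + k + 2 := by ring
    rw [e4]; exact this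

/-- one step of the bad phase -/
theorem Sol.bad_increase (h : Par α A B) {x : ℕ → ℝ} (hx : Sol α A B x) {n : ℕ} {p0 : ℝ}
    (h0 : 1 ≤ x n) (hp0 : 0 < p0) (hp : p0 ≤ x (n + 1)) (hb : A + B * x (n + 1) ≤ α) :
    x (n + 1) + p0 * (1 - A - mm α A B) / ((A + B * (α + 1) + 1) * (α + 1)) ≤ x (n + 3) := by
  have ha := h.ha
  have hB := h.hB
  have hA := h.hA0
  have hA1 := h.hA1
  have hm := bad_lt_m h hb
  have hms := h.mM_sum
  have hMp := h.M_pos
  have hMl := h.M_lt_one
  have hmp := h.m_pos
  have hq : x (n + 2) = (α + x n) / (A + B * x (n + 1) + x n) := hx.rec' n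
  have hD := hx.D_pos h n
  have hD1 := hx.D_pos h (n + 1)
  have hr : x (n + 3) = (α + x (n + 1)) / (A + B * x (n + 2) + x (n + 1)) := hx.rec' (n + 1)
  set p := x (n + 1)
  set q := x (n + 2)
  have hE : 0 < A + B * p + 1 := by nlinarith
  have hq1 : q ≤ (α + 1) / (A + B * p + 1) := by
    rw [hq, div_le_div_iff₀ hD hE]
    have : 0 ≤ (x n - 1) * (α - (A + B * p)) := mul_nonneg (by linarith) (by linarith)
    nlinarith
  have hq2 : q ≤ α + 1 := by
    refine hq1.trans ?_
    rw [div_le_iff₀ hE]
    have : 0 ≤ (α + 1) * (A + B * p) := mul_nonneg (by linarith) (by nlinarith)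
    nlinarith
  have hq0 : 0 ≤ q := hx.nonneg h (n + 2)
  have hp1 : p < 1 := by linarith
  have hp00 : 0 < p := by linarith
  -- q (A + B p + 1) ≤ α + 1
  have hq3 : q * (A + B * p + 1) ≤ α + 1 := by rwa [le_div_iff₀ hE] at hq1
  have hD1' : 0 < A + B * q + p := hD1
  -- numerator estimate
  have hN : p0 * (1 - A - mm α A B) ≤ (α + p - p * (A + B * q + p)) * (A + B * p + 1) := by
    have e : (α + p - p * (A + B * q + p)) * (A + B * p + 1) =
        (α + p * (1 - A - p)) * (A + B * p + 1) - p * B * (q * (A + B * p + 1)) := by ring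
    rw [e]
    have t1 : p * B * (q * (A + B * p + 1)) ≤ p * B * (α + 1) :=
      mul_le_mul_of_nonneg_left hq3 (by positivity)
    have t2 : p0 * (1 - A - mm α A B) ≤ p * (1 - A - p) * (A + B * p + 1) := by
      have u1 : p0 * (1 - A - mm α A B) ≤ p * (1 - A - p) :=
        mul_le_mul hp (by linarith) (by linarith) (by linarith)
      have u2 : p * (1 - A - p) ≤ p * (1 - A - p) * (A + B * p + 1) := by
        have : 0 ≤ p * (1 - A - p) := mul_nonneg hp00.le (by linarith)
        have : 0 ≤ (p * (1 - A - p)) * (A + B * p) := mul_nonneg this (by nlinarith)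
        nlinarith
      linarith
    have t3 : 0 ≤ α * (A + B * p + 1) - p * B * (α + 1) := by
      have : α * (A + B * p + 1) - p * B * (α + 1) = α * A + (α - B * p) := by ring
      rw [this]
      have := mul_nonneg ha.le hA
      linarith
    nlinarith
  have hden : (A + B * q + p) * (A + B * p + 1) ≤ (A + B * (α + 1) + 1) * (α + 1) := by
    refine mul_le_mul ?_ (by linarith) hE.le (by nlinarith)
    nlinarith
  have hN0 : 0 < p0 * (1 - A - mm α A B) := mul_pos hp0 (by linarith)
  have hfin : p0 * (1 - A - mm α A B) / ((A + B * (α + 1) + 1) * (α + 1)) ≤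
      x (n + 3) - p := by
    rw [hr]
    have e : (α + p) / (A + B * q + p) - p =
        ((α + p - p * (A + B * q + p)) * (A + B * p + 1)) /
          ((A + B * q + p) * (A + B * p + 1)) := by
      field_simp
    rw [e]
    exact div_le_div₀ (by linarith) hN (by positivity) hden
  linarith

/-- every solution is eventually good -/
theorem Sol.eventually_good (h : Par α A B) {x : ℕ → ℝ} (hx : Sol α A B x) :
    ∃ N, ∀ n, N ≤ n → α ≤ A + B * x n := by
  by_contra hcon
  push Not at hcon
  have haB := h.a_lt_B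
  have hA := h.hA0
  have hB := h.hB
  -- no two consecutive good terms
  have hno : ∀ n, α ≤ A + B * x (n + 1) → A + B * x (n + 2) < α := by
    intro n h1
    by_contra hc
    have hc := not_lt.1 hc
    obtain ⟨k, hk, hk2⟩ := hcon (n + 1)
    obtain ⟨j, rfl⟩ := Nat.exists_eq_add_of_le hk
    have := (hx.good_forever h h1 hc j).1
    linarith
  have hyes : ∀ n, A + B * x (n + 1) < α → α ≤ A + B * x (n + 2) := by
    intro n h1
    have := hx.bad_next h h1.le
    nlinarith
  obtain ⟨n0, hn0, hbad⟩ := hcon 3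
  obtain ⟨n, rfl⟩ := Nat.exists_eq_add_of_le hn0
  -- x (3 + n) bad; all x (3 + n + 2 k) bad
  have hall : ∀ k, A + B * x (n + 3 + 2 * k) < α := by
    intro k
    induction k with
    | zero => rw [Nat.add_comm n 3]; exact hbad
    | succ k ih =>
      have e1 : n + 3 + 2 * (k + 1) = n + 3 + 2 * k + 2 := by ring
      rw [e1]
      have g1 := hyes (n + 2 + 2 * k) (by
        have : n + 2 + 2 * k + 1 = n + 3 + 2 * k := by ring
        rw [this]; exact ih)
      have := hno (n + 3 + 2 * k) (by
        have : n + 3 + 2 * k + 1 = n + 2 + 2 * k + 2 := by ring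
        rw [this]; exact g1)
      exact this
  set p0 := x (n + 3) with hp0
  have hp0pos : 0 < p0 := hx.pos h (n + 1)
  set η := p0 * (1 - A - mm α A B) / ((A + B * (α + 1) + 1) * (α + 1)) with hη
  have hms := h.mM_sum
  have hMp := h.M_pos
  have ha := h.ha
  have hηpos : 0 < η := by
    rw [hη]
    have : 0 < 1 - A - mm α A B := by linarith
    positivity
  have hgrow : ∀ k : ℕ, p0 + (k : ℝ) * η ≤ x (n + 5 + 2 * k) ∧ p0 ≤ x (n + 3 + 2 * k) := by
    intro k
    induction k with
    | zero =>
      have h1 : 1 ≤ x (n + 4) := by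
        have := hx.bad_next h (n := n + 2) (by
          have := hall 0
          exact this.le)
        exact this
      -- x(n+5) ≥ p0 ? use increase with index n+2 requires 1 ≤ x (n+2)
      have hb2 : 1 ≤ x (n + 2) := by
        -- x (n+1) must be bad, otherwise x (n+2) would be ... 
        by_contra hc
        have hc := not_le.1 hc
        -- x (n+1) good
        have g1 : α ≤ A + B * x (n + 1) := by
          by_contra hc2
          have hc2 := not_le.1 hc2
          have := hx.bad_next h hc2.le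
          linarith
        have b2 := hno n g1
        have g3 := hyes (n + 1) b2
        have := hall 0
        have e : n + 3 + 2 * 0 = n + 1 + 2 := by ring
        rw [e] at this
        linarith
      have := hx.bad_increase h (n := n + 2) hb2 hp0pos le_rfl (by
        have := hall 0
        exact this.le)
      refine ⟨?_, le_rfl⟩
      have e : n + 5 + 2 * 0 = n + 2 + 3 := by ring
      rw [e]
      simp only [Nat.cast_zero, zero_mul, add_zero]
      have e2 : x (n + 2 + 1) = p0 := rfl
      linarith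
    | succ k ih =>
      have e0 : n + 3 + 2 * (k + 1) = n + 5 + 2 * k := by ring
      have hpk : p0 ≤ x (n + 5 + 2 * k) := by
        have : 0 ≤ (k : ℝ) * η := by positivity
        linarith [ih.1]
      refine ⟨?_, by rw [e0]; exact hpk⟩
      have h1 : 1 ≤ x (n + 4 + 2 * k) := by
        have := hx.bad_next h (n := n + 2 + 2 * k) (by
          have := hall k
          have e : n + 2 + 2 * k + 1 = n + 3 + 2 * k := by ring
          rw [e]; exact this.le)
        have e : n + 2 + 2 * k + 2 = n + 4 + 2 * k := by ring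
        rwa [e] at this
      have e1 : n + 4 + 2 * k + 1 = n + 5 + 2 * k := by ring
      have := hx.bad_increase h (n := n + 4 + 2 * k) h1 hp0pos (by rw [e1]; exact hpk) (by
        have := hall (k + 1)
        rw [e0] at this
        rw [e1]
        exact this.le)
      rw [e1] at this
      have e2 : n + 4 + 2 * k + 3 = n + 5 + 2 * (k + 1) := by ring
      rw [e2] at this
      push_cast
      nlinarith [ih.1]
  obtain ⟨k, hk⟩ := exists_nat_gt (1 / η)
  have h1 := (hgrow k).1
  have h2 : 1 < (k : ℝ) * η := by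
    rwa [div_lt_iff₀ hηpos] at hk
  have h3 := hall (k + 1)
  have e0 : n + 3 + 2 * (k + 1) = n + 5 + 2 * k := by ring
  rw [e0] at h3
  have h4 := bad_lt_m h h3.le
  have h5 := h.M_lt_one
  have h6 := h.m_lt_M
  linarith

end Pool.Agent.N261.BC
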