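import Pool.Agent.N261.BC.Conv

namespace Pool.Agent.N261.BC

open Filter Topology

variable {α A B : ℝ}

/-- a solution converging to the equilibrium is good from index one on -/
theorem Sol.good_of_tendsto (h : Par α A B) {x : ℕ → ℝ} (hx : Sol α A B x)
    (hl : Tendsto x atTop (𝓝 (xb α A B))) (n : ℕ) : α < A + B * x (n + 1) := by
  by_contra hc
  have hc := not_lt.1 hc
  have h1 := bad_lt_m h hc
  have h2 := hx.bad_next h hc
  have h3 := h.M_lt_one
  have hab := hx.absorb h (n := n + 1) h1.le (by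
    have : MM α A B ≤ x (n + 2) := by linarith
    exact this)
  have hsub : Tendsto (fun k => x (n + 1 + 2 * k)) atTop (𝓝 (xb α A B)) :=
    hl.comp (tendsto_atTop_atTop.2 (fun b => ⟨b, fun n hn => by omega⟩))
  have := le_of_tendsto' hsub (fun k => (hab k).1)
  have := h.m_lt_xb_lt_M.1
  linarith

/-- alternating comparison -/
theorem Sol.cmp (h : Par α A B) {x y : ℕ → ℝ} (hx : Sol α A B x) (hy : Sol α A B y)
    (hg : ∀ n, α ≤ A + B * x (n + 1)) (h0 : x 0 ≤ y 0) (h1 : y 1 ≤ x 1) (k : ℕ) :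
    x (2 * k) ≤ y (2 * k) ∧ y (2 * k + 1) ≤ x (2 * k + 1) := by
  have hB := h.hB
  induction k with
  | zero => exact ⟨h0, h1⟩
  | succ k ih =>
    have s1 : x (2 * k + 2) ≤ y (2 * k + 2) := hx.cmp_step h hy ih.1 ih.2 (hg _)
    have s2 : y (2 * k + 3) ≤ x (2 * k + 3) :=
      hy.cmp_step h hx (i := 2 * k + 1) (j := 2 * k + 1) ih.2 s1 (by
        have g := hg (2 * k + 1)
        have e : x (2 * k + 1 + 1) ≤ y (2 * k + 1 + 1) := s1
        have : B * x (2 * k + 1 + 1) ≤ B * y (2 * k + 1 + 1) :=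
          mul_le_mul_of_nonneg_left e (by linarith)
        linarith)
    exact ⟨s1, s2⟩

theorem Sol.cmp' (h : Par α A B) {x y : ℕ → ℝ} (hx : Sol α A B x) (hy : Sol α A B y)
    (hg : ∀ n, α ≤ A + B * x (n + 1)) (h0 : y 0 ≤ x 0) (h1 : x 1 ≤ y 1) (k : ℕ) :
    y (2 * k) ≤ x (2 * k) ∧ x (2 * k + 1) ≤ y (2 * k + 1) := by
  have hB := h.hB
  induction k with
  | zero => exact ⟨h0, h1⟩
  | succ k ih =>
    have s1 : y (2 * k + 2) ≤ x (2 * k + 2) :=
      hy.cmp_step h hx ih.1 ih.2 (by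
        have g := hg (2 * k)
        have : B * x (2 * k + 1) ≤ B * y (2 * k + 1) :=
          mul_le_mul_of_nonneg_left ih.2 (by linarith)
        linarith)
    have s2 : x (2 * k + 3) ≤ y (2 * k + 3) :=
      hx.cmp_step h hy (i := 2 * k + 1) (j := 2 * k + 1) ih.2 s1 (hg _)
    exact ⟨s1, s2⟩

/-- the signed differences -/
theorem Sol.diff_rec (h : Par α A B) {x y : ℕ → ℝ} (hx : Sol α A B x) (hy : Sol α A B y) (n : ℕ) :
    (-1 : ℝ) ^ (n + 2) * (y (n + 2) - x (n + 2)) =
      (((-1 : ℝ) ^ n * (y n - x n)) * (A + B * x (n + 1) - α) +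
        B * (α + x n) * ((-1 : ℝ) ^ (n + 1) * (y (n + 1) - x (n + 1)))) /
      ((A + B * x (n + 1) + x n) * (A + B * y (n + 1) + y n)) := by
  rw [hx.rec' n, hy.rec' n, step_diff (hx.D_pos h n) (hy.D_pos h n), ← mul_div_assoc]
  congr 1
  ring

/-- two solutions converging to the equilibrium are not south-east related -/
theorem noSE (h : Par α A B) {x y : ℕ → ℝ} (hx : Sol α A B x) (hy : Sol α A B y)
    (hlx : Tendsto x atTop (𝓝 (xb α A B))) (hly : Tendsto y atTop (𝓝 (xb α A B)))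
    (h0 : x 0 ≤ y 0) (h1 : y 1 ≤ x 1) : x 0 = y 0 ∧ x 1 = y 1 := by
  by_contra hne
  have hB := h.hB
  have ha := h.ha
  have hg := fun n => hx.good_of_tendsto h hlx n
  set d : ℕ → ℝ := fun n => (-1 : ℝ) ^ n * (y n - x n) with hd
  have hrec : ∀ n, d (n + 2) = (d n * (A + B * x (n + 1) - α) + B * (α + x n) * d (n + 1)) /
      ((A + B * x (n + 1) + x n) * (A + B * y (n + 1) + y n)) := fun n => hx.diff_rec h hy n
  have hd0 : 0 ≤ d 0 := by simp only [hd, pow_zero, one_mul]; linarith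
  have hd1 : 0 ≤ d 1 := by simp only [hd, pow_one]; linarith
  have hDD : ∀ n, 0 < (A + B * x (n + 1) + x n) * (A + B * y (n + 1) + y n) :=
    fun n => mul_pos (hx.D_pos h n) (hy.D_pos h n)
  have hb : ∀ n, 0 < B * (α + x n) := fun n =>
    mul_pos (by linarith) (by linarith [hx.nonneg h n])
  have hc : ∀ n, 0 < A + B * x (n + 1) - α := fun n => by linarith [hg n]
  have hpos01 : 0 < d 0 ∨ 0 < d 1 := by
    by_contra hcon
    push Not at hcon
    have e0 : d 0 = 0 := le_antisymm hcon.1 hd0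
    have e1 : d 1 = 0 := le_antisymm hcon.2 hd1
    simp only [hd, pow_zero, one_mul, pow_one] at e0 e1
    exact hne ⟨by linarith, by linarith⟩
  have hd2 : 0 < d 2 := by
    rw [hrec 0]
    apply div_pos _ (hDD 0)
    rcases hpos01 with hp | hp
    · exact add_pos_of_pos_of_nonneg (mul_pos hp (hc 0)) (mul_nonneg (hb 0).le hd1)
    · exact add_pos_of_nonneg_of_pos (mul_nonneg hd0 (hc 0).le) (mul_pos (hb 0) hp)
  have hdp : ∀ n, 0 < d (n + 2) ∧ 0 < d (n + 3) := by
    intro n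
    induction n with
    | zero =>
      refine ⟨hd2, ?_⟩
      rw [hrec 1]
      apply div_pos _ (hDD 1)
      exact add_pos_of_nonneg_of_pos (mul_nonneg hd1 (hc 1).le) (mul_pos (hb 1) hd2)
    | succ n ih =>
      refine ⟨ih.2, ?_⟩
      have e : n + 1 + 3 = n + 2 + 2 := by ring
      rw [e, hrec (n + 2)]
      apply div_pos _ (hDD _)
      have := mul_pos (hb (n + 2)) ih.2
      have := mul_pos ih.1 (hc (n + 2))
      linarith
  -- coefficient sum eventually > 1
  have hx1 : Tendsto (fun n => x (n + 1)) atTop (𝓝 (xb α A B)) := (tendsto_add_atTop_iff_nat 1).2 hlx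
  have hy1 : Tendsto (fun n => y (n + 1)) atTop (𝓝 (xb α A B)) := (tendsto_add_atTop_iff_nat 1).2 hly
  have hL : Tendsto (fun n => (A + B * x (n + 1) + x n) * (A + B * y (n + 1) + y n)) atTop
      (𝓝 ((A + B * xb α A B + xb α A B) ^ 2)) := by
    rw [sq]
    exact (((hx1.const_mul B).const_add A).add hlx).mul (((hy1.const_mul B).const_add A).add hly)
  have hR : Tendsto (fun n => (A + B * x (n + 1) - α) + B * (α + x n)) atTop
      (𝓝 ((A + B * xb α A B - α) + B * (α + xb α A B))) :=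
    (((hx1.const_mul B).const_add A).sub_const α).add ((hlx.const_add α).const_mul B)
  have hev := hL.eventually_lt hR h.unstable
  obtain ⟨N, hN⟩ := eventually_atTop.1 hev
  set ρ : ℝ := min (d (N + 2)) (d (N + 3)) with hρ
  have hρ0 : 0 < ρ := lt_min (hdp N).1 (hdp N).2
  have hmin : ∀ n, ρ ≤ d (N + 2 + n) ∧ ρ ≤ d (N + 3 + n) := by
    intro n
    induction n with
    | zero => exact ⟨min_le_left _ _, min_le_right _ _⟩
    | succ n ih =>
      have e1 : N + 2 + (n + 1) = N + 3 + n := by ring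
      have e2 : N + 3 + (n + 1) = N + 2 + n + 2 := by ring
      rw [e1, e2]
      refine ⟨ih.2, ?_⟩
      rw [hrec, le_div_iff₀ (hDD _)]
      have hNn := hN (N + 2 + n) (by omega)
      have e3 : N + 2 + n + 1 = N + 3 + n := by ring
      have t1 : ρ * (A + B * x (N + 2 + n + 1) - α) ≤
          d (N + 2 + n) * (A + B * x (N + 2 + n + 1) - α) :=
        mul_le_mul_of_nonneg_right ih.1 (hc _).le
      have t2 : B * (α + x (N + 2 + n)) * ρ ≤ B * (α + x (N + 2 + n)) * d (N + 2 + n + 1) := by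
        rw [e3]
        exact mul_le_mul_of_nonneg_left ih.2 (hb _).le
      have t3 := mul_le_mul_of_nonneg_left hNn.le hρ0.le
      nlinarith
  -- contradiction with convergence
  have habs : ∀ n, |d n| = |y n - x n| := by
    intro n
    simp only [hd, abs_mul, abs_pow, abs_neg, abs_one, one_pow, one_mul]
  have hdz : Tendsto (fun n => |y n - x n|) atTop (𝓝 0) := by
    have := (hly.sub hlx).abs
    simpa using this
  obtain ⟨K, hK⟩ := eventually_atTop.1 (hdz.eventually (gt_mem_nhds hρ0))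
  have h5 := hK (N + 2 + K) (by omega)
  have h6 := (hmin K).1
  rw [← habs] at h5
  have := le_abs_self (d (N + 2 + K))
  linarith

/-- lower type: at some time `x_{2n} < xbar < x_{2n+1}` (problem indices) -/
def SL (α A B : ℝ) (x : ℕ → ℝ) : Prop :=
  ∃ n, x (2 * n + 1) < xb α A B ∧ xb α A B < x (2 * n + 2)

def SU (α A B : ℝ) (x : ℕ → ℝ) : Prop :=
  ∃ n, xb α A B < x (2 * n + 1) ∧ x (2 * n + 2) < xb α A B

theorem Sol.stay (h : Par α A B) {x : ℕ → ℝ} (hx : Sol α A B x) {n : ℕ}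
    (h1 : x n ≤ xb α A B) (h2 : xb α A B ≤ x (n + 1)) (k : ℕ) :
    x (n + 2 * k) ≤ xb α A B ∧ xb α A B ≤ x (n + 2 * k + 1) := by
  have hB := h.hB
  have hc := Sol.const h
  have hgd := h.xb_good
  induction k with
  | zero => exact ⟨h1, h2⟩
  | succ k ih =>
    have s1 : x (n + 2 * k + 2) ≤ xb α A B :=
      hx.cmp_step h hc (i := n + 2 * k) (j := 0) ih.1 ih.2 (by nlinarith [ih.2])
    have s2 : xb α A B ≤ x (n + 2 * k + 3) :=
      hc.cmp_step h hx (i := 0) (j := n + 2 * k + 1) ih.2 s1 hgd.le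
    have e1 : n + 2 * (k + 1) = n + 2 * k + 2 := by ring
    rw [e1]
    exact ⟨s1, s2⟩

theorem Sol.stay' (h : Par α A B) {x : ℕ → ℝ} (hx : Sol α A B x) {n : ℕ}
    (h1 : xb α A B ≤ x n) (h2 : x (n + 1) ≤ xb α A B) (k : ℕ) :
    xb α A B ≤ x (n + 2 * k) ∧ x (n + 2 * k + 1) ≤ xb α A B := by
  have hB := h.hB
  have hc := Sol.const h
  have hgd := h.xb_good
  induction k with
  | zero => exact ⟨h1, h2⟩
  | succ k ih =>
    have s1 : xb α A B ≤ x (n + 2 * k + 2) :=
      hc.cmp_step h hx (i := 0) (j := n + 2 * k) ih.1 ih.2 hgd.le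
    have s2 : x (n + 2 * k + 3) ≤ xb α A B :=
      hx.cmp_step h hc (i := n + 2 * k + 1) (j := 0) ih.2 s1 (by
        have : xb α A B ≤ x (n + 2 * k + 1 + 1) := s1
        nlinarith)
    have e1 : n + 2 * (k + 1) = n + 2 * k + 2 := by ring
    rw [e1]
    exact ⟨s1, s2⟩

theorem Sol.conv_SL (h : Par α A B) {x : ℕ → ℝ} (hx : Sol α A B x) (hs : SL α A B x) :
    Tendsto (fun k => x (2 * k + 1)) atTop (𝓝 (mm α A B)) ∧
      Tendsto (fun k => x (2 * k)) atTop (𝓝 (MM α A B)) := by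
  obtain ⟨n, h1, h2⟩ := hs
  obtain ⟨a, b, ha, hb⟩ := hx.two_limits h
  have hst := hx.stay h h1.le h2.le
  have hbl : b ≤ xb α A B := by
    refine le_of_tendsto hb (eventually_atTop.2 ⟨n, fun k hk => ?_⟩)
    obtain ⟨j, rfl⟩ := Nat.exists_eq_add_of_le hk
    have := (hst j).1
    have e : 2 * (n + j) + 1 = 2 * n + 1 + 2 * j := by ring
    rw [e]; exact this
  rcases hx.classify h ha hb with ⟨h3, h4⟩ | ⟨h3, h4⟩ | ⟨h3, h4⟩
  · exfalso
    rw [h3] at ha
    rw [h4] at hb
    have hl := Sol.tendsto_of h ha hb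
    have hsx := hx.shift h (2 * n + 1)
    have hls : Tendsto (fun k => x (k + (2 * n + 1))) atTop (𝓝 (xb α A B)) :=
      (tendsto_add_atTop_iff_nat _).2 hl
    have := noSE h hsx (Sol.const h) hls tendsto_const_nhds
      (by show x (0 + (2 * n + 1)) ≤ _; rw [Nat.zero_add]; exact h1.le)
      (by show _ ≤ x (1 + (2 * n + 1))
          have e : 1 + (2 * n + 1) = 2 * n + 2 := by ring
          rw [e]; exact h2.le)
    have h5 : x (0 + (2 * n + 1)) = xb α A B := this.1
    rw [Nat.zero_add] at h5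
    linarith
  · exfalso
    have := h.m_lt_xb_lt_M.2
    linarith
  · rw [h3] at ha; rw [h4] at hb
    exact ⟨hb, ha⟩

theorem Sol.conv_SU (h : Par α A B) {x : ℕ → ℝ} (hx : Sol α A B x) (hs : SU α A B x) :
    Tendsto (fun k => x (2 * k + 1)) atTop (𝓝 (MM α A B)) ∧
      Tendsto (fun k => x (2 * k)) atTop (𝓝 (mm α A B)) := by
  obtain ⟨n, h1, h2⟩ := hs
  obtain ⟨a, b, ha, hb⟩ := hx.two_limits h
  have hst := hx.stay' h h1.le h2.le
  have hbl : xb α A B ≤ b := by
    refine ge_of_tendsto hb (eventually_atTop.2 ⟨n, fun k hk => ?_⟩)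
    obtain ⟨j, rfl⟩ := Nat.exists_eq_add_of_le hk
    have := (hst j).1
    have e : 2 * (n + j) + 1 = 2 * n + 1 + 2 * j := by ring
    rw [e]; exact this
  rcases hx.classify h ha hb with ⟨h3, h4⟩ | ⟨h3, h4⟩ | ⟨h3, h4⟩
  · exfalso
    rw [h3] at ha
    rw [h4] at hb
    have hl := Sol.tendsto_of h ha hb
    have hsx := hx.shift h (2 * n + 1)
    have hls : Tendsto (fun k => x (k + (2 * n + 1))) atTop (𝓝 (xb α A B)) :=
      (tendsto_add_atTop_iff_nat _).2 hl
    have := noSE h (Sol.const h) hsx tendsto_const_nhds hls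
      (by show _ ≤ x (0 + (2 * n + 1)); rw [Nat.zero_add]; exact h1.le)
      (by show x (1 + (2 * n + 1)) ≤ _
          have e : 1 + (2 * n + 1) = 2 * n + 2 := by ring
          rw [e]; exact h2.le)
    have h5 : xb α A B = x (0 + (2 * n + 1)) := this.1
    rw [Nat.zero_add] at h5
    linarith
  · rw [h3] at ha; rw [h4] at hb
    exact ⟨hb, ha⟩
  · exfalso
    have := h.m_lt_xb_lt_M.1
    linarith

/-- trichotomy -/
theorem Sol.tri (h : Par α A B) {x : ℕ → ℝ} (hx : Sol α A B x) :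
    Tendsto x atTop (𝓝 (xb α A B)) ∨ SL α A B x ∨ SU α A B x := by
  obtain ⟨a, b, ha, hb⟩ := hx.two_limits h
  have hml := h.m_lt_xb_lt_M
  have ha2 : Tendsto (fun k => x (2 * k + 2)) atTop (𝓝 a) := by
    have := (tendsto_add_atTop_iff_nat 1).2 ha
    refine this.congr (fun k => ?_)
    congr 1
  rcases hx.classify h ha hb with ⟨h3, h4⟩ | ⟨h3, h4⟩ | ⟨h3, h4⟩
  · left
    rw [h3] at ha
    rw [h4] at hb
    exact Sol.tendsto_of h ha hb
  · right; right
    rw [h3] at ha2; rw [h4] at hb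
    obtain ⟨N, hN⟩ := eventually_atTop.1 ((hb.eventually (lt_mem_nhds hml.2)).and
      (ha2.eventually (gt_mem_nhds hml.1)))
    exact ⟨N, (hN N le_rfl).1, (hN N le_rfl).2⟩
  · right; left
    rw [h3] at ha2; rw [h4] at hb
    obtain ⟨N, hN⟩ := eventually_atTop.1 ((hb.eventually (gt_mem_nhds hml.1)).and
      (ha2.eventually (lt_mem_nhds hml.2)))
    exact ⟨N, (hN N le_rfl).1, (hN N le_rfl).2⟩

theorem Sol.not_SL_of_tendsto (h : Par α A B) {x : ℕ → ℝ} (hx : Sol α A B x)
    (hl : Tendsto x atTop (𝓝 (xb α A B))) : ¬ SL α A B x := by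
  intro hs
  have h1 := (hx.conv_SL h hs).1
  have h2 := tendsto_nhds_unique h1 (sub_even hl 1)
  linarith [h.m_lt_xb_lt_M.1]

theorem Sol.not_SU_of_tendsto (h : Par α A B) {x : ℕ → ℝ} (hx : Sol α A B x)
    (hl : Tendsto x atTop (𝓝 (xb α A B))) : ¬ SU α A B x := by
  intro hs
  have h1 := (hx.conv_SU h hs).1
  have h2 := tendsto_nhds_unique h1 (sub_even hl 1)
  linarith [h.m_lt_xb_lt_M.2]

theorem Sol.not_both (h : Par α A B) {x : ℕ → ℝ} (hx : Sol α A B x)
    (h1 : SL α A B x) (h2 : SU α A B x) : False := by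
  have h3 := (hx.conv_SL h h1).1
  have h4 := (hx.conv_SU h h2).1
  have := tendsto_nhds_unique h3 h4
  linarith [h.m_lt_M]

/-- comparison with a solution on the separatrix -/
theorem Sol.below (h : Par α A B) {x y : ℕ → ℝ} (hx : Sol α A B x) (hy : Sol α A B y)
    (hl : Tendsto x atTop (𝓝 (xb α A B))) (h0 : x 0 = y 0) (h1 : y 1 < x 1) : SL α A B y := by
  have hg := fun n => (hx.good_of_tendsto h hl n).le
  have hc := hx.cmp h hy hg h0.le h1.le
  rcases hy.tri h with ht | ht | ht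
  · exfalso
    have := noSE h hx hy hl ht h0.le h1.le
    linarith [this.2]
  · exact ht
  · exfalso
    have h2 := (hy.conv_SU h ht).1
    have h3 := le_of_tendsto_of_tendsto' h2 (sub_even hl 1) (fun k => (hc k).2)
    linarith [h.m_lt_xb_lt_M.2]

theorem Sol.above (h : Par α A B) {x y : ℕ → ℝ} (hx : Sol α A B x) (hy : Sol α A B y)
    (hl : Tendsto x atTop (𝓝 (xb α A B))) (h0 : x 0 = y 0) (h1 : x 1 < y 1) : SU α A B y := by
  have hg := fun n => (hx.good_of_tendsto h hl n).le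
  have hc := hx.cmp' h hy hg h0.ge h1.le
  rcases hy.tri h with ht | ht | ht
  · exfalso
    have := noSE h hy hx ht hl h0.ge h1.le
    linarith [this.2]
  · exfalso
    have h2 := (hy.conv_SL h ht).1
    have h3 := le_of_tendsto_of_tendsto' (sub_even hl 1) h2 (fun k => (hc k).2)
    linarith [h.m_lt_xb_lt_M.1]
  · exact ht

end Pool.Agent.N261.BC
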