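import Pool.Agent.N261.BC.Curve

namespace Pool.Agent.N261.BC

open Filter Topology Set

variable {α A B : ℝ} {φ : ℝ → ℝ}

/-- uniqueness of the monotone solution of the functional equation -/
theorem IsPhi.unique_mono' (h : Par α A B) (hφ : IsPhi α A B φ) {ψ : ℝ → ℝ}
    (hm : MonotoneOn ψ (Ici 0)) (hp : ∀ u, 0 ≤ u → 0 < ψ u)
    (hfe : ∀ u, 0 ≤ u → ψ (ψ u) = (α + u) / (A + B * ψ u + u)) {u : ℝ} (hu : 0 ≤ u) :
    ψ u = φ u := by
  set x : ℕ → ℝ := fun n => ψ^[n] u with hx
  have hnn : ∀ n, 0 ≤ x n := by
    intro n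
    induction n with
    | zero => exact hu
    | succ n ih =>
      have : x (n + 1) = ψ (x n) := Function.iterate_succ_apply' _ _ _
      rw [this]; exact (hp _ ih).le
  have hstep : ∀ n, x (n + 1) = ψ (x n) := fun n => Function.iterate_succ_apply' _ _ _
  have hsol : Sol α A B x := by
    refine ⟨hu, hnn 1, ?_, ?_⟩
    · have : x 1 = ψ u := rfl
      rw [this]
      exact adm h hu (hp u hu)
    · intro n
      have e1 : x (n + 2) = ψ (x (n + 1)) := hstep (n + 1)
      rw [e1, hstep n]
      exact hfe _ (hnn n)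
  obtain ⟨a, b, ha, hb⟩ := hsol.two_limits h
  have ha2 : Tendsto (fun k => x (2 * k + 2)) atTop (𝓝 a) := by
    have := (tendsto_add_atTop_iff_nat 1).2 ha
    refine this.congr (fun k => ?_)
    congr 1
  have hab : a = b := by
    rcases le_total (x 0) (x 1) with hc | hc
    · have hinc : ∀ n, x n ≤ x (n + 1) := by
        intro n
        induction n with
        | zero => exact hc
        | succ n ih =>
          rw [hstep (n + 1), hstep n]
          exact hm (mem_Ici.2 (hnn n)) (mem_Ici.2 (by rw [← hstep n]; exact hnn (n + 1)))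
            (by rw [← hstep n]; exact ih)
      exact le_antisymm (le_of_tendsto_of_tendsto' ha hb (fun k => hinc _))
        (le_of_tendsto_of_tendsto' hb ha2 (fun k => hinc _))
    · have hdec : ∀ n, x (n + 1) ≤ x n := by
        intro n
        induction n with
        | zero => exact hc
        | succ n ih =>
          rw [hstep (n + 1), hstep n]
          exact hm (mem_Ici.2 (by rw [← hstep n]; exact hnn (n + 1))) (mem_Ici.2 (hnn n))
            (by rw [← hstep n]; exact ih)
      exact le_antisymm (le_of_tendsto_of_tendsto' ha2 hb (fun k => hdec _))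
        (le_of_tendsto_of_tendsto' hb ha (fun k => hdec _))
  subst hab
  have hml := h.m_lt_xb_lt_M
  have hlim : Tendsto x atTop (𝓝 (xb α A B)) := by
    rcases hsol.classify h ha hb with ⟨h3, h4⟩ | ⟨h3, h4⟩ | ⟨h3, h4⟩
    · rw [h3] at ha hb
      exact Sol.tendsto_of h ha hb
    · exfalso; linarith
    · exfalso; linarith
  exact hφ.unique h hsol hlim

end Pool.Agent.N261.BC
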